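import Pool.Agent.Lib.SpG.Bound

/-!
# Spectral count of the adjacency matrix of a random graph: final forms

* `euclid_le`: explicit, one scale;
* `strong`: all scales at once: outside a fraction `exp (-K m)` of the graphs, every subspace `W` on which the
  adjacency matrix is bounded by `s` has `dim W < C ((s^2 m^2)^(1/3) + √m)`;
* `weak`: for `s = m^(1/4)`.
-/

set_option autoImplicit false
open Module Finset SingG Matrix

namespace Pool.Agent.Lib.SpG.Main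

open Pool.Agent.Lib.SpG.Count Pool.Agent.Lib.SpG.Bound

variable {m : ℕ}

private theorem small_of_euclid (ω : Sym2 (Fin m) → Bool) (D : Matrix (Fin m) (Fin m) ℝ)
    (hD : ∀ i j, D i j = ent ω i j) {s : ℝ} {n : ℕ}
    (W : Submodule ℝ (EuclideanSpace ℝ (Fin m))) (hn : n ≤ finrank ℝ W)
    (hW : ∀ w ∈ W, ‖toEuclideanLin D w‖ ≤ s * ‖w‖) : Small n (s ^ 2) ω := by
  refine ⟨W.map (WithLp.linearEquiv 2 ℝ (Fin m → ℝ)).toLinearMap, ?_, ?_⟩
  · rw [LinearEquiv.finrank_map_eq]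
    exact hn
  · rintro w ⟨v, hv, rfl⟩
    have h1 := hW v hv
    have h2 : ‖toEuclideanLin D v‖ ^ 2 ≤ (s * ‖v‖) ^ 2 :=
      pow_le_pow_left₀ (norm_nonneg _) h1 2
    rw [mul_pow, EuclideanSpace.norm_sq_eq, EuclideanSpace.norm_sq_eq] at h2
    simp only [Real.norm_eq_abs, sq_abs] at h2
    refine le_trans (le_of_eq ?_) (h2.trans (le_of_eq ?_))
    · refine Finset.sum_congr rfl fun i _ => ?_
      congr 1
      unfold SingG.row
      have h3 : (toEuclideanLin D v) i = ∑ l, D i l * v l := rfl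
      rw [h3]
      refine Finset.sum_congr rfl fun l _ => ?_
      rw [hD]
      rfl
    · rfl

open scoped Classical in
/-- **Spectral count, explicit.** -/
theorem euclid_le {h : ℕ} (hm : 0 < m) (hh : 0 < h) (s : ℝ)
    (hsh : s ^ 2 ≤ (h : ℝ) ^ 3 / (100 * (m : ℝ) ^ 2)) :
    ((univ.filter fun G : SimpleGraph (Fin m) => ∃ W : Submodule ℝ (EuclideanSpace ℝ (Fin m)),
        8 * h ≤ finrank ℝ W ∧ ∀ w ∈ W, ‖toEuclideanLin (G.adjMatrix ℝ) w‖ ≤ s * ‖w‖).card : ℝ) ≤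
      Real.exp (8 * h * Real.log m - (h : ℝ) ^ 2 / 5) * Fintype.card (SimpleGraph (Fin m)) := by
  have h1 := transfer (n := m) (fun G => ∃ W : Submodule ℝ (EuclideanSpace ℝ (Fin m)),
        8 * h ≤ finrank ℝ W ∧ ∀ w ∈ W, ‖toEuclideanLin (G.adjMatrix ℝ) w‖ ≤ s * ‖w‖)
    (Real.exp (8 * h * Real.log m - (h : ℝ) ^ 2 / 5))
    (univ.filter (fun ω : Sym2 (Fin m) → Bool => Small (8 * h) (s ^ 2) ω)) (by
      rintro ω ⟨W, hW, hWs⟩
      rw [mem_filter]
      refine ⟨mem_univ _, small_of_euclid ω ((gr ω).adjMatrix ℝ) (fun i j => ?_) W hW hWs⟩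
      rw [ent_eq]) (small_le hm hh (s ^ 2) (sq_nonneg s) hsh)
  rw [Nat.card_eq_fintype_card, Fintype.card_subtype, Nat.card_eq_fintype_card] at h1
  exact h1

/-- `8 h log m - h²/5 ≤ - h²/10` for `h ≥ 80 log m`. -/
private theorem exp_bound {h : ℕ} {L : ℝ} (hL : 80 * L ≤ h) :
    8 * (h : ℝ) * L - (h : ℝ) ^ 2 / 5 ≤ -((h : ℝ) ^ 2 / 10) := by
  have : (0 : ℝ) ≤ h := Nat.cast_nonneg h
  nlinarith

open Filter in
private theorem eventually_par (C1 K : ℝ) (hC1 : 0 < C1) (hK : K + 1 ≤ C1 ^ 2 / 10) :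
    ∀ᶠ m : ℕ in atTop, 80 * Real.log m ≤ C1 * √m ∧ 1 ≤ √(m : ℝ) ∧
      (m : ℝ) * Real.exp (-(C1 ^ 2 * m / 10)) ≤ Real.exp (-(K * m)) := by
  have h1 : ∀ᶠ m : ℕ in atTop, 80 * Real.log m ≤ C1 * √m := by
    have h2 := (isLittleO_log_rpow_atTop (r := 1 / 2) (by norm_num)).bound
      (show (0 : ℝ) < C1 / 80 by positivity)
    have h3 := tendsto_natCast_atTop_atTop (R := ℝ) |>.eventually h2
    filter_upwards [h3, eventually_ge_atTop 1] with m hm hm1
    have hm' : (1 : ℝ) ≤ m := by exact_mod_cast hm1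
    rw [Real.norm_eq_abs, Real.norm_eq_abs, abs_of_nonneg (Real.log_nonneg hm'),
      abs_of_nonneg (by positivity), ← Real.sqrt_eq_rpow] at hm
    linarith
  filter_upwards [h1, eventually_ge_atTop 1] with m hm hm1
  have hm' : (1 : ℝ) ≤ m := by exact_mod_cast hm1
  refine ⟨hm, ?_, ?_⟩
  · rw [Real.one_le_sqrt]; exact hm'
  · have h2 : (m : ℝ) ≤ Real.exp m := by
      have := Real.add_one_le_exp (m : ℝ)
      linarith
    calc (m : ℝ) * Real.exp (-(C1 ^ 2 * m / 10)) ≤ Real.exp m * Real.exp (-(C1 ^ 2 * m / 10)) :=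
          mul_le_mul_of_nonneg_right h2 (Real.exp_pos _).le
      _ = Real.exp (m - C1 ^ 2 * m / 10) := by rw [← Real.exp_add, sub_eq_add_neg]
      _ ≤ Real.exp (-(K * m)) := by
          apply Real.exp_le_exp.2
          nlinarith

open scoped Classical in
/-- **Spectral count, all scales at once.** -/
theorem strong (K : ℝ) : ∃ C : ℝ, 0 < C ∧ ∃ m0 : ℕ, ∀ m ≥ m0,
    ((univ.filter fun G : SimpleGraph (Fin m) => ∃ (W : Submodule ℝ (EuclideanSpace ℝ (Fin m))) (s : ℝ),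
        0 ≤ s ∧ C * ((s ^ 2 * (m : ℝ) ^ 2) ^ (1 / 3 : ℝ) + √m) ≤ finrank ℝ W ∧
        ∀ w ∈ W, ‖toEuclideanLin (G.adjMatrix ℝ) w‖ ≤ s * ‖w‖).card : ℝ) ≤
      Real.exp (-(K * m)) * Fintype.card (SimpleGraph (Fin m)) := by
  set K' : ℝ := max K 0 with hK'
  have hKK : K ≤ K' := le_max_left _ _
  have hK0 : 0 ≤ K' := le_max_right _ _
  set C1 : ℝ := √(10 * (K' + 1)) with hC1
  have hC1s : C1 ^ 2 = 10 * (K' + 1) := Real.sq_sqrt (by linarith)
  have hC1p : 0 < C1 := Real.sqrt_pos.2 (by linarith)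
  obtain ⟨m1, hm1⟩ := Filter.eventually_atTop.1 (eventually_par C1 K' hC1p (by rw [hC1s]; linarith))
  set C : ℝ := 8 * (C1 + 1) + 40 with hC
  refine ⟨C, by positivity, max m1 1, fun m hm => ?_⟩
  obtain ⟨h1, h2, h3⟩ := hm1 m (le_trans (le_max_left _ _) hm)
  have hm0 : 0 < m := lt_of_lt_of_le one_pos (le_trans (le_max_right _ _) hm)
  have hmR : (0 : ℝ) < m := by exact_mod_cast hm0
  -- the events
  set B : ℕ → Finset (SimpleGraph (Fin m)) := fun h =>
    univ.filter fun G : SimpleGraph (Fin m) => ∃ W : Submodule ℝ (EuclideanSpace ℝ (Fin m)),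
        8 * h ≤ finrank ℝ W ∧ ∀ w ∈ W, ‖toEuclideanLin (G.adjMatrix ℝ) w‖ ≤
          √((h : ℝ) ^ 3 / (100 * (m : ℝ) ^ 2)) * ‖w‖ with hB
  set H : Finset ℕ := (Finset.range m).filter (fun h => C1 * √m ≤ (h : ℝ)) with hH
  have hsub : (univ.filter fun G : SimpleGraph (Fin m) => ∃ (W : Submodule ℝ (EuclideanSpace ℝ (Fin m))) (s : ℝ),
        0 ≤ s ∧ C * ((s ^ 2 * (m : ℝ) ^ 2) ^ (1 / 3 : ℝ) + √m) ≤ finrank ℝ W ∧
        ∀ w ∈ W, ‖toEuclideanLin (G.adjMatrix ℝ) w‖ ≤ s * ‖w‖) ⊆ H.biUnion B := by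
    intro G hG
    obtain ⟨W, s, hs0, hWd, hWs⟩ := (mem_filter.1 hG).2
    set n := finrank ℝ W with hn
    set X : ℝ := (s ^ 2 * (m : ℝ) ^ 2) ^ (1 / 3 : ℝ) with hX
    have hX0 : 0 ≤ X := by positivity
    have hX3 : X ^ 3 = s ^ 2 * (m : ℝ) ^ 2 := by
      rw [hX, ← Real.rpow_natCast, ← Real.rpow_mul (by positivity)]
      norm_num
    have hnm : n ≤ m := by
      have := Submodule.finrank_le W
      rwa [finrank_euclideanSpace, Fintype.card_fin] at this
    have h8 : (n : ℝ) / 8 - 1 ≤ ((n / 8 : ℕ) : ℝ) := by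
      have : n ≤ 8 * (n / 8) + 8 := by omega
      have h9 : (n : ℝ) ≤ 8 * ((n / 8 : ℕ) : ℝ) + 8 := by exact_mod_cast this
      linarith
    have hlow : (C1 + 1) * √m + 5 * X + 5 * √m - 1 ≤ ((n / 8 : ℕ) : ℝ) := by
      have h10 : C * (X + √m) / 8 - 1 ≤ ((n / 8 : ℕ) : ℝ) := by linarith
      refine le_trans ?_ h10
      rw [hC]
      have : 0 ≤ (C1 + 1) * X := by positivity
      nlinarith
    rw [mem_biUnion]
    refine ⟨n / 8, ?_, ?_⟩
    · rw [hH, mem_filter, mem_range]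
      constructor
      · omega
      · nlinarith
    · rw [hB, mem_filter]
      refine ⟨mem_univ _, W, by omega, fun w hw => (hWs w hw).trans ?_⟩
      apply mul_le_mul_of_nonneg_right _ (norm_nonneg w)
      apply Real.le_sqrt_of_sq_le
      rw [le_div_iff₀ (by positivity)]
      have h11 : 5 * X ≤ ((n / 8 : ℕ) : ℝ) := by nlinarith
      have h12 : (5 * X) ^ 3 ≤ ((n / 8 : ℕ) : ℝ) ^ 3 := pow_le_pow_left₀ (by positivity) h11 3
      have h13 : (5 * X) ^ 3 = 125 * (s ^ 2 * (m : ℝ) ^ 2) := by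
        rw [mul_pow, hX3]; norm_num
      have h14 : 0 ≤ s ^ 2 * (m : ℝ) ^ 2 := by positivity
      linarith
  have hBle : ∀ h ∈ H, ((B h).card : ℝ) ≤
      Real.exp (-(C1 ^ 2 * m / 10)) * Fintype.card (SimpleGraph (Fin m)) := by
    intro h hh
    rw [hH, mem_filter, mem_range] at hh
    have hh0 : 0 < h := by
      have : 0 < C1 * √m := by positivity
      have h15 : (0 : ℝ) < h := lt_of_lt_of_le this hh.2
      exact_mod_cast h15
    have h16 := euclid_le (m := m) hm0 hh0 (√((h : ℝ) ^ 3 / (100 * (m : ℝ) ^ 2)))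
      (by rw [Real.sq_sqrt (by positivity)])
    refine h16.trans ?_
    apply mul_le_mul_of_nonneg_right _ (by positivity)
    apply Real.exp_le_exp.2
    refine (exp_bound (h1.trans hh.2)).trans ?_
    have h17 : (C1 * √m) ^ 2 ≤ (h : ℝ) ^ 2 := pow_le_pow_left₀ (by positivity) hh.2 2
    rw [mul_pow, Real.sq_sqrt hmR.le] at h17
    linarith
  calc ((univ.filter fun G : SimpleGraph (Fin m) => ∃ (W : Submodule ℝ (EuclideanSpace ℝ (Fin m))) (s : ℝ),
        0 ≤ s ∧ C * ((s ^ 2 * (m : ℝ) ^ 2) ^ (1 / 3 : ℝ) + √m) ≤ finrank ℝ W ∧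
        ∀ w ∈ W, ‖toEuclideanLin (G.adjMatrix ℝ) w‖ ≤ s * ‖w‖).card : ℝ)
      ≤ ((H.biUnion B).card : ℝ) := by exact_mod_cast Finset.card_le_card hsub
    _ ≤ ((∑ h ∈ H, (B h).card : ℕ) : ℝ) := by exact_mod_cast Finset.card_biUnion_le
    _ = ∑ h ∈ H, ((B h).card : ℝ) := by push_cast; rfl
    _ ≤ ∑ _h ∈ H, Real.exp (-(C1 ^ 2 * m / 10)) * Fintype.card (SimpleGraph (Fin m)) :=
        Finset.sum_le_sum hBle
    _ = H.card * (Real.exp (-(C1 ^ 2 * m / 10)) * Fintype.card (SimpleGraph (Fin m))) := by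
        rw [Finset.sum_const, nsmul_eq_mul]
    _ ≤ m * (Real.exp (-(C1 ^ 2 * m / 10)) * Fintype.card (SimpleGraph (Fin m))) := by
        apply mul_le_mul_of_nonneg_right _ (by positivity)
        have : H.card ≤ m := (Finset.card_filter_le _ _).trans (by rw [card_range])
        exact_mod_cast this
    _ = (m * Real.exp (-(C1 ^ 2 * m / 10))) * Fintype.card (SimpleGraph (Fin m)) := by ring
    _ ≤ Real.exp (-(K' * m)) * Fintype.card (SimpleGraph (Fin m)) :=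
        mul_le_mul_of_nonneg_right h3 (by positivity)
    _ ≤ Real.exp (-(K * m)) * Fintype.card (SimpleGraph (Fin m)) := by
        apply mul_le_mul_of_nonneg_right _ (by positivity)
        apply Real.exp_le_exp.2
        nlinarith

open scoped Classical in
/-- **Spectral count at a constant multiple of `√m`**: for every `d > 0` there are `τ, c > 0` such that for large `m`
the adjacency matrix has a subspace of dimension `≥ d m` on which it is bounded by `τ √m` for at most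
`exp (-c m^2)` of all graphs. -/
theorem linear (d : ℝ) (hd : 0 < d) : ∃ τ : ℝ, 0 < τ ∧ ∃ c : ℝ, 0 < c ∧ ∃ m0 : ℕ, ∀ m ≥ m0,
    ((univ.filter fun G : SimpleGraph (Fin m) => ∃ W : Submodule ℝ (EuclideanSpace ℝ (Fin m)),
        d * m ≤ finrank ℝ W ∧ ∀ w ∈ W, ‖toEuclideanLin (G.adjMatrix ℝ) w‖ ≤ (τ * √m) * ‖w‖).card : ℝ) ≤
      Real.exp (-(c * (m : ℝ) ^ 2)) * Fintype.card (SimpleGraph (Fin m)) := by
  -- h = ⌊d m / 8⌋ ≥ d m / 16
  have hev : ∀ᶠ m : ℕ in Filter.atTop, 80 * Real.log m ≤ d / 16 * m ∧ (16 : ℝ) ≤ d * m := by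
    have h2 := (Real.isLittleO_log_id_atTop).bound (show (0 : ℝ) < d / 1280 by positivity)
    have h3 := tendsto_natCast_atTop_atTop (R := ℝ) |>.eventually h2
    have h4 := tendsto_natCast_atTop_atTop (R := ℝ) |>.eventually (Filter.eventually_ge_atTop (16 / d))
    filter_upwards [h3, h4, Filter.eventually_ge_atTop 1] with m hm hm2 hm1
    have hm' : (1 : ℝ) ≤ m := by exact_mod_cast hm1
    rw [Real.norm_eq_abs, Real.norm_eq_abs, abs_of_nonneg (Real.log_nonneg hm')] at hm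
    simp only [id] at hm
    rw [abs_of_nonneg (by positivity)] at hm
    constructor
    · linarith
    · rw [div_le_iff₀ hd] at hm2
      linarith
  obtain ⟨m1, hm1⟩ := Filter.eventually_atTop.1 hev
  set τ : ℝ := √((d / 16) ^ 3 / 100) with hτ
  refine ⟨τ, Real.sqrt_pos.2 (by positivity), d ^ 2 / 2560, by positivity, max m1 1, fun m hm => ?_⟩
  obtain ⟨h1, h2⟩ := hm1 m (le_trans (le_max_left _ _) hm)
  have hm0 : 0 < m := lt_of_lt_of_le one_pos (le_trans (le_max_right _ _) hm)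
  have hmR : (0 : ℝ) < m := by exact_mod_cast hm0
  set h : ℕ := ⌊d * m / 8⌋₊ with hh
  have hle : (h : ℝ) ≤ d * m / 8 := Nat.floor_le (by positivity)
  have hge : d / 16 * m ≤ (h : ℝ) := by
    have := Nat.lt_floor_add_one (d * m / 8)
    rw [← hh] at this
    linarith
  have hh0 : 0 < h := by
    have : (0 : ℝ) < h := lt_of_lt_of_le (by positivity) hge
    exact_mod_cast this
  have h3 := euclid_le (m := m) hm0 hh0 (τ * √m) (by
    rw [mul_pow, hτ, Real.sq_sqrt (by positivity), Real.sq_sqrt hmR.le, le_div_iff₀ (by positivity)]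
    have h4 : (d / 16 * m) ^ 3 ≤ (h : ℝ) ^ 3 := pow_le_pow_left₀ (by positivity) hge 3
    nlinarith)
  refine le_trans ?_ (h3.trans ?_)
  · rw [Nat.cast_le]
    apply Finset.card_le_card
    intro G hG
    rw [mem_filter] at hG ⊢
    obtain ⟨W, hW, hWs⟩ := hG.2
    refine ⟨mem_univ _, W, ?_, hWs⟩
    have : ((8 * h : ℕ) : ℝ) ≤ finrank ℝ W := by
      push_cast
      linarith
    exact_mod_cast this
  · apply mul_le_mul_of_nonneg_right _ (by positivity)
    apply Real.exp_le_exp.2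
    refine (exp_bound (h1.trans hge)).trans ?_
    have h5 : (d / 16 * m) ^ 2 ≤ (h : ℝ) ^ 2 := pow_le_pow_left₀ (by positivity) hge 2
    nlinarith

open scoped Classical in
/-- **S-weak** of route R. -/
theorem weak (d : ℝ) (hd : 0 < d) : ∃ m0 : ℕ, ∀ m ≥ m0,
    (univ.filter fun G : SimpleGraph (Fin m) => ∃ W : Submodule ℝ (EuclideanSpace ℝ (Fin m)),
        d * m ≤ finrank ℝ W ∧ ∀ w ∈ W,
          ‖toEuclideanLin (G.adjMatrix ℝ) w‖ ≤ (m : ℝ) ^ (1 / 4 : ℝ) * ‖w‖).card * 8 ^ m ≤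
      Fintype.card (SimpleGraph (Fin m)) := by
  obtain ⟨τ, hτ, c, hc, m0, hm0⟩ := linear d hd
  have hev : ∀ᶠ m : ℕ in Filter.atTop, (m : ℝ) ^ (1 / 4 : ℝ) ≤ τ * √m ∧ (3 : ℝ) / c ≤ m := by
    have h1 : Filter.Tendsto (fun x : ℝ => x ^ (1 / 4 : ℝ)) Filter.atTop Filter.atTop :=
      tendsto_rpow_atTop (by norm_num)
    have h2 := h1.eventually (Filter.eventually_ge_atTop (1 / τ))
    have h3 := tendsto_natCast_atTop_atTop (R := ℝ) |>.eventually h2
    have h4 := tendsto_natCast_atTop_atTop (R := ℝ) |>.eventually (Filter.eventually_ge_atTop (3 / c))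
    filter_upwards [h3, h4] with m hm hm2
    refine ⟨?_, hm2⟩
    have h5 : √(m : ℝ) = (m : ℝ) ^ (1 / 4 : ℝ) * (m : ℝ) ^ (1 / 4 : ℝ) := by
      rw [Real.sqrt_eq_rpow, ← Real.rpow_add_of_nonneg (Nat.cast_nonneg m) (by norm_num) (by norm_num)]
      norm_num
    rw [h5, ← mul_assoc]
    have h6 : 1 ≤ τ * (m : ℝ) ^ (1 / 4 : ℝ) := by
      rw [div_le_iff₀ hτ] at hm
      linarith
    have h7 : (0 : ℝ) ≤ (m : ℝ) ^ (1 / 4 : ℝ) := by positivity
    nlinarith
  obtain ⟨m1, hm1⟩ := Filter.eventually_atTop.1 hev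
  refine ⟨max m0 m1, fun m hm => ?_⟩
  obtain ⟨h1, h2⟩ := hm1 m (le_trans (le_max_right _ _) hm)
  have h3 := hm0 m (le_trans (le_max_left _ _) hm)
  set Gs := (univ.filter fun G : SimpleGraph (Fin m) => ∃ W : Submodule ℝ (EuclideanSpace ℝ (Fin m)),
        d * m ≤ finrank ℝ W ∧ ∀ w ∈ W,
          ‖toEuclideanLin (G.adjMatrix ℝ) w‖ ≤ (m : ℝ) ^ (1 / 4 : ℝ) * ‖w‖) with hGs
  have h4 : (Gs.card : ℝ) ≤ Real.exp (-(c * (m : ℝ) ^ 2)) * Fintype.card (SimpleGraph (Fin m)) := by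
    refine le_trans ?_ h3
    rw [Nat.cast_le]
    apply Finset.card_le_card
    intro G hG
    rw [hGs, mem_filter] at hG
    rw [mem_filter]
    obtain ⟨W, hW, hWs⟩ := hG.2
    exact ⟨mem_univ _, W, hW, fun w hw => (hWs w hw).trans
      (mul_le_mul_of_nonneg_right h1 (norm_nonneg w))⟩
  have h5 : (8 : ℝ) ^ m ≤ Real.exp (c * (m : ℝ) ^ 2) := by
    have h6 : (8 : ℝ) ≤ Real.exp 3 := by
      have h7 := Real.exp_one_gt_d9
      have h8 : Real.exp 3 = Real.exp 1 ^ 3 := by rw [← Real.exp_nat_mul]; norm_num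
      rw [h8]
      calc (8 : ℝ) = 2 ^ 3 := by norm_num
        _ ≤ Real.exp 1 ^ 3 := pow_le_pow_left₀ (by norm_num) (by linarith) 3
    calc (8 : ℝ) ^ m ≤ Real.exp 3 ^ m := pow_le_pow_left₀ (by norm_num) h6 m
      _ = Real.exp (m * 3) := (Real.exp_nat_mul _ _).symm
      _ ≤ Real.exp (c * (m : ℝ) ^ 2) := by
          apply Real.exp_le_exp.2
          rw [div_le_iff₀ hc] at h2
          have : (0 : ℝ) ≤ m := Nat.cast_nonneg m
          nlinarith
  have h6 : (Gs.card : ℝ) * 8 ^ m ≤ Fintype.card (SimpleGraph (Fin m)) := by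
    calc (Gs.card : ℝ) * 8 ^ m
        ≤ (Real.exp (-(c * (m : ℝ) ^ 2)) * Fintype.card (SimpleGraph (Fin m))) * Real.exp (c * (m : ℝ) ^ 2) :=
          mul_le_mul h4 h5 (by positivity) (by positivity)
      _ = Fintype.card (SimpleGraph (Fin m)) * (Real.exp (-(c * (m : ℝ) ^ 2)) * Real.exp (c * (m : ℝ) ^ 2)) := by
          ring
      _ = Fintype.card (SimpleGraph (Fin m)) := by
          rw [← Real.exp_add]
          simp
  exact_mod_cast h6

end Pool.Agent.Lib.SpG.Main
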