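import Pool.Agent.Lib.SpG.Count

/-!
# Spectral count: explicit bounds

`small_le`: for `1 ≤ h` and `s ≤ h^3 / (100 m^2)` the fraction of symmetric 0/1 matrices `D` of size `m` having a
subspace `V` with `dim V ≥ 8 h`, `|D v|^2 ≤ s |v|^2` on `V`, is at most `exp (8 h log m - h^2 / 5)`.
-/

set_option autoImplicit false
open Module Finset SingG

namespace Pool.Agent.Lib.SpG.Bound

open Pool.Agent.Lib.SpG.Col Pool.Agent.Lib.SpG.Count

private theorem exp_one_ge : (2.7 : ℝ) ≤ Real.exp 1 := by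
  have := Real.exp_one_gt_d9
  linarith

private theorem half_le : (1 + Real.exp (-1)) / 2 ≤ Real.exp (-(9 / 25 : ℝ)) := by
  -- exp(-1) ≤ 10/27, and exp(-9/25) ≥ 1 - 9/25 + (9/25)^2/2 - (9/25)^3/6
  have h1 : Real.exp (-1) ≤ 10 / 27 := by
    rw [Real.exp_neg, inv_le_comm₀ (Real.exp_pos 1) (by norm_num)]
    have := exp_one_ge
    linarith
  have h2 : Real.exp (9 / 25 : ℝ) ≤ 1 / (1 - 9 / 25 + (9 / 25) ^ 2 / 2 - (9 / 25) ^ 3 / 6 : ℝ) := by
    have h3 := Real.exp_bound' (x := 9 / 25) (by norm_num) (by norm_num) (n := 4) (by norm_num)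
    refine h3.trans ?_
    simp [Finset.sum_range_succ, Nat.factorial]
    norm_num
  have h4 : (1 - 9 / 25 + (9 / 25) ^ 2 / 2 - (9 / 25) ^ 3 / 6 : ℝ) ≤ Real.exp (-(9 / 25 : ℝ)) := by
    rw [Real.exp_neg]
    rw [le_inv_comm₀ (by norm_num) (Real.exp_pos _)]
    refine h2.trans (le_of_eq ?_)
    rw [one_div]
  have h5 : (1 + 10 / 27 : ℝ) / 2 ≤ 1 - 9 / 25 + (9 / 25) ^ 2 / 2 - (9 / 25) ^ 3 / 6 := by norm_num
  linarith

/-- The bound for one step. -/
theorem rho_le {m h : ℕ} (hm : 0 < m) (hh : 0 < h) (φ S : ℝ) (hφ : 8 * m / h ≤ φ) :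
    rho m h φ S ≤ Real.exp (φ * S - 9 / 50 * h) := by
  unfold rho
  have hm' : (0 : ℝ) < m := by exact_mod_cast hm
  have hh' : (0 : ℝ) < h := by exact_mod_cast hh
  have hφ0 : 0 ≤ φ := le_trans (by positivity) hφ
  have h1 : ∀ j : Fin h, ((1 + Real.exp (-(φ * (((j : ℕ) + 1 : ℝ) / m) / 4))) / 2) ≤
      Real.exp (if h ≤ 2 * ((j : ℕ) + 1) then -(9 / 25 : ℝ) else 0) := by
    intro j
    split_ifs with hj
    · have h2 : (1 : ℝ) ≤ φ * (((j : ℕ) + 1 : ℝ) / m) / 4 := by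
        have h3 : (h : ℝ) ≤ 2 * (((j : ℕ) : ℝ) + 1) := by exact_mod_cast hj
        have h4 : (1 : ℝ) ≤ 8 * m / h * (((j : ℕ) + 1 : ℝ) / m) / 4 := by
          have h5 : 8 * m / h * (((j : ℕ) + 1 : ℝ) / m) / 4 = 2 * (((j : ℕ) : ℝ) + 1) / h := by
            field_simp
            ring
          rw [h5, le_div_iff₀ hh']
          linarith
        refine h4.trans ?_
        gcongr
      have h6 : Real.exp (-(φ * (((j : ℕ) + 1 : ℝ) / m) / 4)) ≤ Real.exp (-1) :=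
        Real.exp_le_exp.2 (by linarith)
      have := half_le
      linarith
    · rw [Real.exp_zero]
      have h6 : Real.exp (-(φ * (((j : ℕ) + 1 : ℝ) / m) / 4)) ≤ 1 := by
        apply Real.exp_le_one_iff.2
        have : 0 ≤ φ * (((j : ℕ) + 1 : ℝ) / m) / 4 := by positivity
        linarith
      linarith
  have h2 : ∏ j : Fin h, ((1 + Real.exp (-(φ * (((j : ℕ) + 1 : ℝ) / m) / 4))) / 2) ≤
      Real.exp (∑ j : Fin h, (if h ≤ 2 * ((j : ℕ) + 1) then -(9 / 25 : ℝ) else 0)) := by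
    rw [Real.exp_sum]
    exact Finset.prod_le_prod (fun j _ => by positivity) fun j _ => h1 j
  have h3 : ∑ j : Fin h, (if h ≤ 2 * ((j : ℕ) + 1) then -(9 / 25 : ℝ) else 0) ≤ -(9 / 50 : ℝ) * h := by
    rw [Fin.sum_univ_eq_sum_range (fun j : ℕ => if h ≤ 2 * (j + 1) then -(9 / 25 : ℝ) else 0) h]
    rw [← Finset.sum_filter, Finset.sum_const, nsmul_eq_mul]
    have h4 : (h : ℝ) / 2 ≤ ((Finset.range h).filter (fun j => h ≤ 2 * (j + 1))).card := by
      have h5 : Finset.Ico ((h - 1) / 2) h ⊆ (Finset.range h).filter (fun j => h ≤ 2 * (j + 1)) := by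
        intro j hj
        rw [Finset.mem_Ico] at hj
        rw [Finset.mem_filter, Finset.mem_range]
        omega
      have h6 := Finset.card_le_card h5
      rw [Nat.card_Ico] at h6
      have h7 : h ≤ 2 * ((Finset.range h).filter (fun j => h ≤ 2 * (j + 1))).card := by omega
      have h8 : (h : ℝ) ≤ 2 * (((Finset.range h).filter (fun j => h ≤ 2 * (j + 1))).card : ℝ) := by
        exact_mod_cast h7
      linarith
    nlinarith
  calc Real.exp (φ * S) * ∏ j : Fin h, ((1 + Real.exp (-(φ * (((j : ℕ) + 1 : ℝ) / m) / 4))) / 2)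
      ≤ Real.exp (φ * S) * Real.exp (-(9 / 50 : ℝ) * h) :=
        mul_le_mul_of_nonneg_left (h2.trans (Real.exp_le_exp.2 h3)) (Real.exp_pos _).le
    _ = Real.exp (φ * S - 9 / 50 * h) := by
        rw [← Real.exp_add]
        congr 1
        ring

open scoped Classical in
theorem small_le {m h : ℕ} (hm : 0 < m) (hh : 0 < h) (s : ℝ) (hs : 0 ≤ s)
    (hsh : s ≤ (h : ℝ) ^ 3 / (100 * (m : ℝ) ^ 2)) :
    ((univ.filter (fun ω : Sym2 (Fin m) → Bool => Small (8 * h) s ω)).card : ℝ) ≤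
      Real.exp (8 * h * Real.log m - (h : ℝ) ^ 2 / 5) * Fintype.card (Sym2 (Fin m) → Bool) := by
  have hm' : (0 : ℝ) < m := by exact_mod_cast hm
  have hh' : (0 : ℝ) < h := by exact_mod_cast hh
  have h1 := card_small_le (m := m) hh s (8 * m / h) hs (by positivity)
  have h2 := rho_le hm hh (8 * m / h) (s * m / (h + 1)) le_rfl
  have h3 : 8 * m / h * (s * m / (h + 1)) ≤ 2 / 25 * (h : ℝ) := by
    have h4 : s * m / (h + 1) ≤ s * m / h := by
      gcongr
      linarith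
    have h5 : 8 * m / h * (s * m / (h + 1)) ≤ 8 * m / h * (s * m / h) :=
      mul_le_mul_of_nonneg_left h4 (by positivity)
    refine h5.trans ?_
    have h6 : 8 * m / h * (s * m / h) = 8 * (m : ℝ) ^ 2 / (h : ℝ) ^ 2 * s := by
      field_simp
    rw [h6]
    have h7 : 8 * (m : ℝ) ^ 2 / (h : ℝ) ^ 2 * s ≤ 8 * (m : ℝ) ^ 2 / (h : ℝ) ^ 2 * ((h : ℝ) ^ 3 / (100 * (m : ℝ) ^ 2)) :=
      mul_le_mul_of_nonneg_left hsh (by positivity)
    refine h7.trans (le_of_eq ?_)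
    field_simp
    ring
  have h4 : rho m h (8 * m / h) (s * m / (h + 1)) ≤ Real.exp (-(h : ℝ) / 10) := by
    refine h2.trans (Real.exp_le_exp.2 ?_)
    linarith
  have h5 : rho m h (8 * m / h) (s * m / (h + 1)) ^ (2 * h) ≤ Real.exp (-((h : ℝ) ^ 2 / 5)) := by
    calc rho m h (8 * m / h) (s * m / (h + 1)) ^ (2 * h)
        ≤ Real.exp (-(h : ℝ) / 10) ^ (2 * h) := pow_le_pow_left₀ (rho_nonneg _ _ _ _) h4 _
      _ = Real.exp (-((h : ℝ) ^ 2 / 5)) := by
          rw [← Real.exp_nat_mul]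
          congr 1
          push_cast
          ring
  have h6 : (m : ℝ) ^ (8 * h) = Real.exp (8 * h * Real.log m) := by
    rw [← Real.rpow_natCast, Real.rpow_def_of_pos hm']
    congr 1
    push_cast
    ring
  refine h1.trans ?_
  have h7 : (m : ℝ) ^ (8 * h) * rho m h (8 * m / h) (s * m / (h + 1)) ^ (2 * h) ≤
      Real.exp (8 * h * Real.log m - (h : ℝ) ^ 2 / 5) := by
    rw [h6, sub_eq_add_neg, Real.exp_add]
    exact mul_le_mul_of_nonneg_left h5 (Real.exp_pos _).le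
  exact mul_le_mul_of_nonneg_right h7 (by positivity)

/-- Graph form of `small_le`. -/
theorem graph_small_le {m h : ℕ} (hm : 0 < m) (hh : 0 < h) (s : ℝ) (hs : 0 ≤ s)
    (hsh : s ≤ (h : ℝ) ^ 3 / (100 * (m : ℝ) ^ 2)) :
    (Nat.card {G : SimpleGraph (Fin m) // ∃ V : Submodule ℝ (Fin m → ℝ), 8 * h ≤ finrank ℝ V ∧
      ∀ v ∈ V, ∑ x, (Matrix.mulVec (@SimpleGraph.adjMatrix ℝ _ G (Classical.decRel _) _ _) v) x ^ 2 ≤
        s * ∑ i, v i ^ 2} : ℝ) ≤
      Real.exp (8 * h * Real.log m - (h : ℝ) ^ 2 / 5) * Nat.card (SimpleGraph (Fin m)) := by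
  classical
  refine transfer _ _ (univ.filter (fun ω : Sym2 (Fin m) → Bool => Small (8 * h) s ω)) ?_
    (small_le hm hh s hs hsh)
  rintro ω ⟨V, hV, hVs⟩
  rw [mem_filter]
  refine ⟨mem_univ _, V, hV, fun v hv => ?_⟩
  refine le_trans (le_of_eq ?_) (hVs v hv)
  refine Finset.sum_congr rfl fun x _ => ?_
  congr 1
  unfold row Matrix.mulVec dotProduct
  refine Finset.sum_congr rfl fun l _ => ?_
  rw [ent_eq]

end Pool.Agent.Lib.SpG.Bound
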