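import Pool.Agent.Lib.SpG.Dist
import Pool.Agent.Lib.MP_686cbb_pr.Graph

/-!
# A fresh column of a random symmetric 0/1 matrix is far from the span of few old columns
-/

set_option autoImplicit false
open Module Finset SingG

namespace Pool.Agent.Lib.SpG.Col

open Pool.Agent.Lib.SpG.Greedy Pool.Agent.Lib.SpG.Dist

variable {m : ℕ}

/-- On the rows `X` the column `i` is within squared distance `S` of the span of the columns in `J`. -/
def Near (i : Fin m) (J X : Finset (Fin m)) (S : ℝ) (ω : Sym2 (Fin m) → Bool) : Prop :=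
  ∃ c : Fin m → ℝ, c i = 1 ∧ (∀ l, l ≠ i → l ∉ J → c l = 0) ∧ ∑ x ∈ X, row ω x c ^ 2 ≤ S

/-- The bound for one step. -/
noncomputable def rho (m h : ℕ) (φ S : ℝ) : ℝ :=
  Real.exp (φ * S) * ∏ j : Fin h, ((1 + Real.exp (-(φ * (((j : ℕ) + 1 : ℝ) / m) / 4))) / 2)

theorem rho_nonneg (m h : ℕ) (φ S : ℝ) : 0 ≤ rho m h φ S := by
  unfold rho
  positivity

/-- `Near i J X S` does not see the bits `s(i', x)` with `i' ∉ X`, `i' ≠ i`, `i' ∉ J`. -/
theorem near_congr {i i' : Fin m} {J X : Finset (Fin m)} {S : ℝ} {ω ω' : Sym2 (Fin m) → Bool}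
    (h1 : i' ∉ X) (h2 : i' ≠ i) (h3 : i' ∉ J) (hω : ∀ e ∉ Fs i' X, ω' e = ω e)
    (h : Near i J X S ω) : Near i J X S ω' := by
  obtain ⟨c, hc1, hc0, hcS⟩ := h
  refine ⟨c, hc1, hc0, ?_⟩
  refine le_trans (le_of_eq ?_) hcS
  refine Finset.sum_congr rfl fun x hx => ?_
  congr 1
  apply row_congr
  intro l _ hcl
  apply hω
  rw [mem_Fs h1]
  rintro (⟨h, _⟩ | ⟨h, _⟩)
  · exact h1 (h ▸ hx)
  · apply hcl
    rw [h]
    exact hc0 i' h2 h3

/-- The columns of the matrix on the rows `X`. -/
private noncomputable def col (ω : Sym2 (Fin m) → Bool) (X : Finset (Fin m)) (i : Fin m) :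
    EuclideanSpace ℝ X := WithLp.toLp 2 (fun v => ent ω v i)

open scoped Classical in
/-- The number of fresh columns for which the event holds. -/
theorem fresh_col (i : Fin m) (J X : Finset (Fin m)) (S φ : ℝ) (hφ : 0 ≤ φ) (r : ℕ)
    (hiX : i ∉ X) (hr : r + J.card ≤ X.card) (ω : Sym2 (Fin m) → Bool) :
    (((Fs i X).powerset.filter (fun x => Near i J X S (upd ω (Fs i X) x))).card : ℝ) ≤
      rho m r φ S * 2 ^ (Fs i X).card := by
  classical
  set W : Submodule ℝ (EuclideanSpace ℝ X) :=
    Submodule.span ℝ ((J.erase i).image (col ω X) : Finset _) with hW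
  have hWr : finrank ℝ W ≤ J.card :=
    ((finrank_span_finset_le_card _).trans Finset.card_image_le).trans (Finset.card_erase_le)
  have hnear := card_near W r (by rw [Fintype.card_coe]; omega) φ S hφ
  have hXm : X.card ≤ m := by
    have := Finset.card_le_univ X
    simpa using this
  have hcmp : Real.exp (φ * S) * (2 ^ Fintype.card X *
        ∏ j : Fin r, ((1 + Real.exp (-(φ * (((j : ℕ) + 1 : ℝ) / Fintype.card X) / 4))) / 2)) ≤
      rho m r φ S * 2 ^ (Fs i X).card := by
    rw [card_Fs, Fintype.card_coe]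
    unfold rho
    have h1 : ∏ j : Fin r, ((1 + Real.exp (-(φ * (((j : ℕ) + 1 : ℝ) / X.card) / 4))) / 2) ≤
        ∏ j : Fin r, ((1 + Real.exp (-(φ * (((j : ℕ) + 1 : ℝ) / m) / 4))) / 2) := by
      refine Finset.prod_le_prod (fun i _ => by positivity) fun i _ => ?_
      have hX0 : (0 : ℝ) < X.card := by
        have hi := i.2
        have : 0 < X.card := by omega
        exact_mod_cast this
      have hXm' : (X.card : ℝ) ≤ m := by exact_mod_cast hXm
      have h2 : ((i : ℕ) + 1 : ℝ) / m ≤ ((i : ℕ) + 1 : ℝ) / X.card := by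
        gcongr
      have h3 : φ * (((i : ℕ) + 1 : ℝ) / m) ≤ φ * (((i : ℕ) + 1 : ℝ) / X.card) :=
        mul_le_mul_of_nonneg_left h2 hφ
      have h4 : Real.exp (-(φ * (((i : ℕ) + 1 : ℝ) / X.card) / 4)) ≤
          Real.exp (-(φ * (((i : ℕ) + 1 : ℝ) / m) / 4)) := by
        apply Real.exp_le_exp.2
        linarith
      linarith
    calc Real.exp (φ * S) * (2 ^ X.card *
          ∏ j : Fin r, ((1 + Real.exp (-(φ * (((j : ℕ) + 1 : ℝ) / X.card) / 4))) / 2))
        ≤ Real.exp (φ * S) * (2 ^ X.card *
          ∏ j : Fin r, ((1 + Real.exp (-(φ * (((j : ℕ) + 1 : ℝ) / m) / 4))) / 2)) := by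
          gcongr
      _ = _ := by ring
  refine le_trans ?_ (hnear.trans hcmp)
  rw [Nat.cast_le]
  apply Finset.card_le_card_of_injOn (fun x => fun v : X => decide (s(i, (v : Fin m)) ∈ x))
  · intro x hx
    simp only [coe_filter, mem_powerset, Set.mem_ofPred_eq, mem_univ, true_and] at hx ⊢
    obtain ⟨hxF, c, hc1, hc0, hcS⟩ := hx
    set w : EuclideanSpace ℝ X := - ∑ l ∈ J.erase i, c l • col ω X l with hw
    refine ⟨w, ?_, ?_⟩
    · rw [hw]
      refine Submodule.neg_mem _ (Submodule.sum_mem _ fun i hi => Submodule.smul_mem _ _ ?_)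
      apply Submodule.subset_span
      simp only [coe_image]
      exact ⟨i, hi, rfl⟩
    · have h1 : ∀ v : X, bit (decide (s(i, (v : Fin m)) ∈ x)) - w v =
          row (upd ω (Fs i X) x) v c := by
        intro v
        have hvj : (v : Fin m) ≠ i := fun h => hiX (h ▸ v.2)
        have hwv : w v = - ∑ l ∈ J.erase i, c l * ent ω v l := by
          rw [hw]
          simp [col]
        unfold row
        have h2 : ∑ l, ent (upd ω (Fs i X) x) (v : Fin m) l * c l =
            ent (upd ω (Fs i X) x) (v : Fin m) i * c i + ∑ l ∈ J.erase i, c l * ent ω v l := by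
          rw [← Finset.add_sum_erase Finset.univ _ (Finset.mem_univ i)]
          congr 1
          have h3 : J.erase i ⊆ Finset.univ.erase i := Finset.erase_subset_erase _ (Finset.subset_univ _)
          rw [← Finset.sum_subset h3]
          · refine Finset.sum_congr rfl fun l hl => ?_
            have hlj : l ≠ i := Finset.ne_of_mem_erase hl
            have h5 : s((v : Fin m), l) ∉ Fs i X := by
              rw [mem_Fs hiX]
              rintro (⟨h, _⟩ | ⟨h, _⟩)
              · exact hvj h
              · exact hlj h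
            have h6 : ent (upd ω (Fs i X) x) (v : Fin m) l = ent ω v l := by
              simp [ent, upd, h5]
            rw [h6]; ring
          · intro l hl hlJ
            have hli : l ≠ i := Finset.ne_of_mem_erase hl
            have : l ∉ J := fun h => hlJ (Finset.mem_erase.2 ⟨hli, h⟩)
            rw [hc0 l hli this, mul_zero]
        rw [h2, hc1, mul_one, hwv]
        have h7 : s((v : Fin m), i) ∈ Fs i X := by
          rw [mem_Fs hiX]
          exact Or.inr ⟨rfl, v.2⟩
        have h8 : ent (upd ω (Fs i X) x) (v : Fin m) i = bit (decide (s(i, (v : Fin m)) ∈ x)) := by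
          unfold ent bit
          rw [if_neg hvj]
          simp only [upd, h7, if_true]
          rw [Sym2.eq_swap]
        rw [h8]
        ring
      have h9 : ∑ v : X, (bit (decide (s(i, (v : Fin m)) ∈ x)) - w v) ^ 2 =
          ∑ v ∈ X, row (upd ω (Fs i X) x) v c ^ 2 := by
        rw [← Finset.sum_coe_sort X]
        refine Finset.sum_congr rfl fun v _ => ?_
        rw [h1]
      rw [h9]
      exact hcS
  · intro x hx y hy hxy
    simp only [coe_filter, mem_powerset, Set.mem_ofPred_eq] at hx hy
    have key : ∀ l ∈ X, (s(i, l) ∈ x ↔ s(i, l) ∈ y) := by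
      intro l hl
      have := congrFun hxy ⟨l, hl⟩
      simpa using this
    ext e
    constructor
    · intro he
      have h1 := hx.1 he
      unfold Fs at h1
      obtain ⟨l, hl, rfl⟩ := Finset.mem_image.1 h1
      exact (key l hl).1 he
    · intro he
      have h1 := hy.1 he
      unfold Fs at h1
      obtain ⟨l, hl, rfl⟩ := Finset.mem_image.1 h1
      exact (key l hl).2 he

open scoped Classical in
/-- Independent steps: a sequence of columns, each near the span of its own old columns. -/
theorem card_all_near (X : Finset (Fin m)) (S φ : ℝ) (hφ : 0 ≤ φ) (r : ℕ) (i : ℕ → Fin m)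
    (J : ℕ → Finset (Fin m)) (T : Finset ℕ)
    (hX : ∀ t ∈ T, i t ∉ X) (hr : ∀ t ∈ T, r + (J t).card ≤ X.card)
    (hlt : ∀ t ∈ T, ∀ t' ∈ T, t < t' → i t' ≠ i t ∧ i t' ∉ J t) :
    ((univ.filter (fun ω : Sym2 (Fin m) → Bool => ∀ t ∈ T, Near (i t) (J t) X S ω)).card : ℝ) ≤
      rho m r φ S ^ T.card * Fintype.card (Sym2 (Fin m) → Bool) := by
  classical
  induction T using Finset.induction_on_max with
  | empty => simp
  | insert t T hmax ih =>
    have htT : t ∉ T := fun h => lt_irrefl _ (hmax t h)
    have ih' := ih (fun u hu => hX u (Finset.mem_insert_of_mem hu))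
      (fun u hu => hr u (Finset.mem_insert_of_mem hu))
      (fun u hu u' hu' h => hlt u (Finset.mem_insert_of_mem hu) u' (Finset.mem_insert_of_mem hu') h)
    set G := univ.filter (fun ω : Sym2 (Fin m) → Bool => ∀ t ∈ T, Near (i t) (J t) X S ω) with hG
    set B := univ.filter (fun ω : Sym2 (Fin m) → Bool => Near (i t) (J t) X S ω) with hB
    have h1 : univ.filter (fun ω : Sym2 (Fin m) → Bool => ∀ u ∈ insert t T, Near (i u) (J u) X S ω) =
        G ∩ B := by
      ext ω
      simp only [hG, hB, mem_filter, mem_univ, true_and, mem_inter, mem_insert, forall_eq_or_imp]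
      exact ⟨fun h => ⟨h.2, h.1⟩, fun h => ⟨h.2, h.1⟩⟩
    rw [h1, Finset.card_insert_of_notMem htT, pow_succ]
    have h2 := fresh (Fs (i t) X) G B (by
      intro ω hω ω' hω'
      simp only [hG, mem_filter, mem_univ, true_and] at hω ⊢
      intro u hu
      have h3 := hlt u (Finset.mem_insert_of_mem hu) t (Finset.mem_insert_self _ _) (hmax u hu)
      exact near_congr (hX t (Finset.mem_insert_self _ _)) h3.1 h3.2 hω' (hω u hu))
      (rho m r φ S) (by
      intro ω _
      have h3 := fresh_col (i t) (J t) X S φ hφ r (hX t (Finset.mem_insert_self _ _))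
        (hr t (Finset.mem_insert_self _ _)) ω
      refine le_trans (le_of_eq ?_) h3
      congr 2
      ext x
      simp [hB])
    refine h2.trans ?_
    calc rho m r φ S * (G.card : ℝ) ≤ rho m r φ S * (rho m r φ S ^ T.card * Fintype.card (Sym2 (Fin m) → Bool)) :=
          mul_le_mul_of_nonneg_left ih' (rho_nonneg _ _ _ _)
      _ = _ := by ring

end Pool.Agent.Lib.SpG.Col
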