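import Pool.Agent.Lib.SpG.Col

/-!
# Spectral count of a random symmetric 0/1 matrix

If `s ≤ h^3 / (100 m^2)`, then the random symmetric 0/1 matrix `D` of size `m` (zero diagonal) has a subspace `V`
with `dim V ≥ 8 h` and `|D v|^2 ≤ s |v|^2` on `V` with probability at most `exp(8 h log m - h^2 / 5)`.
-/

set_option autoImplicit false
open Module Finset SingG

namespace Pool.Agent.Lib.SpG.Count

open Pool.Agent.Lib.SpG.Greedy Pool.Agent.Lib.SpG.Dist Pool.Agent.Lib.SpG.Col

variable {m : ℕ}

/-- The matrix is small on a subspace of dimension at least `k`. -/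
def Small (k : ℕ) (s : ℝ) (ω : Sym2 (Fin m) → Bool) : Prop :=
  ∃ V : Submodule ℝ (Fin m → ℝ), k ≤ finrank ℝ V ∧
    ∀ v ∈ V, ∑ x, row ω x v ^ 2 ≤ s * ∑ i, v i ^ 2

/-- A subspace on which the matrix is small gives a sequence of columns near the span of the old columns. -/
theorem exists_near (ω : Sym2 (Fin m) → Bool) (V : Submodule ℝ (Fin m → ℝ)) (k : ℕ)
    (hk : k ≤ finrank ℝ V) (s : ℝ) (hs0 : 0 ≤ s)
    (hs : ∀ v ∈ V, ∑ x, row ω x v ^ 2 ≤ s * ∑ i, v i ^ 2) :
    ∃ p : Fin k → Fin m, Function.Injective p ∧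
      ∀ (X : Finset (Fin m)) (j : Fin k),
        Near (p j) (univ.filter fun i => ∀ j' : Fin k, j ≤ j' → i ≠ p j') X
          (s * m / ((j : ℕ) + 1)) ω := by
  classical
  set e := (WithLp.linearEquiv 2 ℝ (Fin m → ℝ)).symm with he
  set U : Submodule ℝ (EuclideanSpace ℝ (Fin m)) := V.map e.toLinearMap with hU
  have hfr : finrank ℝ U = finrank ℝ V := LinearEquiv.finrank_map_eq e V
  obtain ⟨f, p, hfU, hfo, hfp, hft⟩ := exists_family k U (by omega)
  have hpos : ∀ j : Fin k, 0 < f j (p j) ^ 2 := by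
    intro j
    refine lt_of_lt_of_le ?_ (hfp j)
    have : 0 < Fintype.card (Fin m) := Fintype.card_pos_iff.2 ⟨p j⟩
    have h2 : (0 : ℝ) < Fintype.card (Fin m) := by exact_mod_cast this
    positivity
  have hne : ∀ j : Fin k, f j (p j) ≠ 0 := fun j h => by
    have := hpos j
    rw [h] at this
    simp at this
  refine ⟨p, ?_, ?_⟩
  · intro a b hab
    rcases lt_trichotomy a b with h | h | h
    · exact absurd (by rw [hab]; exact hft a b h) (hne a)
    · exact h
    · exact absurd (by rw [← hab]; exact hft b a h) (hne b)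
  · intro X j
    have hfV : (fun i => f j i) ∈ V := by
      obtain ⟨v, hv, hvf⟩ := Submodule.mem_map.1 (hfU j)
      have : (fun i => f j i) = v := by
        rw [← hvf]
        rfl
      rw [this]
      exact hv
    have h1 := hs _ hfV
    have h2 : ∑ i, f j i ^ 2 = 1 := by
      have h3 := hfo.1 j
      have h4 := EuclideanSpace.norm_sq_eq (𝕜 := ℝ) (f j)
      rw [h3] at h4
      simpa using h4.symm
    rw [h2, mul_one] at h1
    refine ⟨fun i => (f j (p j))⁻¹ * f j i, inv_mul_cancel₀ (hne j), ?_, ?_⟩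
    · intro l hl hlJ
      simp only [mem_filter, mem_univ, true_and, not_forall, not_not] at hlJ
      obtain ⟨j', hj', rfl⟩ := hlJ
      have : j < j' := lt_of_le_of_ne hj' (fun e => hl (by rw [e]))
      simp [hft j j' this]
    · have h5 : ∀ x, row ω x (fun i => (f j (p j))⁻¹ * f j i) = (f j (p j))⁻¹ * row ω x (fun i => f j i) := by
        intro x
        unfold row
        rw [Finset.mul_sum]
        refine Finset.sum_congr rfl fun l _ => ?_
        ring
      have h6 : ∑ x ∈ X, row ω x (fun i => (f j (p j))⁻¹ * f j i) ^ 2 ≤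
          (f j (p j) ^ 2)⁻¹ * s := by
        calc ∑ x ∈ X, row ω x (fun i => (f j (p j))⁻¹ * f j i) ^ 2
            ≤ ∑ x, row ω x (fun i => (f j (p j))⁻¹ * f j i) ^ 2 :=
              Finset.sum_le_sum_of_subset_of_nonneg (Finset.subset_univ _) fun _ _ _ => sq_nonneg _
          _ = (f j (p j) ^ 2)⁻¹ * ∑ x, row ω x (fun i => f j i) ^ 2 := by
              rw [Finset.mul_sum]
              refine Finset.sum_congr rfl fun x _ => ?_
              rw [h5, mul_pow, inv_pow]
          _ ≤ _ := mul_le_mul_of_nonneg_left h1 (by positivity)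
      refine h6.trans ?_
      have h7 := hfp j
      rw [Fintype.card_fin] at h7
      have hm : (0 : ℝ) < m := by
        have : 0 < m := Fin.pos (p j)
        exact_mod_cast this
      have h8 : (f j (p j) ^ 2)⁻¹ ≤ m / ((j : ℕ) + 1 : ℝ) := by
        rw [inv_le_comm₀ (hpos j) (by positivity), inv_div]
        exact h7
      calc (f j (p j) ^ 2)⁻¹ * s ≤ m / ((j : ℕ) + 1 : ℝ) * s := mul_le_mul_of_nonneg_right h8 hs0
        _ = s * m / ((j : ℕ) + 1) := by ring

theorem near_mono {i : Fin m} {J X : Finset (Fin m)} {S S' : ℝ} {ω : Sym2 (Fin m) → Bool}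
    (h : Near i J X S ω) (hS : S ≤ S') : Near i J X S' ω := by
  obtain ⟨c, h1, h2, h3⟩ := h
  exact ⟨c, h1, h2, h3.trans hS⟩

open scoped Classical in
/-- The number of matrices for a given sequence of pivots. -/
theorem card_pivots {h : ℕ} (hh : 0 < h) (p : Fin (8 * h) → Fin m) (hp : Function.Injective p)
    (φ S : ℝ) (hφ : 0 ≤ φ) :
    ((univ.filter (fun ω : Sym2 (Fin m) → Bool => ∀ (X : Finset (Fin m)) (j : Fin (8 * h)), h ≤ (j : ℕ) →
        Near (p j) (univ.filter fun i => ∀ j' : Fin (8 * h), j ≤ j' → i ≠ p j') X S ω)).card : ℝ) ≤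
      rho m h φ S ^ (2 * h) * Fintype.card (Sym2 (Fin m) → Bool) := by
  classical
  -- natural number indexed version of `p`
  set q : ℕ → Fin m := fun t => if ht : t < 8 * h then p ⟨t, ht⟩ else p ⟨0, by omega⟩ with hq
  have hqe : ∀ t (ht : t < 8 * h), q t = p ⟨t, ht⟩ := fun t ht => by rw [hq]; simp [ht]
  set X : Finset (Fin m) := univ.filter (fun x => ∀ i : Fin (8 * h), (i : ℕ) < 4 * h → p i ≠ x) with hX
  set J : ℕ → Finset (Fin m) := fun t => univ.filter (fun i => ∀ j' : Fin (8 * h), t ≤ (j' : ℕ) → i ≠ p j') with hJ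
  set T : Finset ℕ := Finset.Ico h (3 * h) with hT
  have hXc : X.card + 4 * h = m := by
    have h1 : Xᶜ = (univ.filter (fun i : Fin (8 * h) => (i : ℕ) < 4 * h)).image p := by
      ext x
      simp only [hX, mem_compl, mem_image, mem_filter, mem_univ, true_and]
      push Not
      rfl
    have h2 : (univ.filter (fun i : Fin (8 * h) => (i : ℕ) < 4 * h)).card = 4 * h := by
      have h3 : (univ.filter (fun i : Fin (8 * h) => (i : ℕ) < 4 * h)) =
          (univ : Finset (Fin (4 * h))).map (Fin.castLEEmb (by omega)) := by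
        ext x
        simp only [mem_filter, mem_univ, true_and, mem_map, Fin.castLEEmb_apply]
        constructor
        · intro hx
          exact ⟨⟨x, hx⟩, rfl⟩
        · rintro ⟨y, rfl⟩
          exact y.2
      rw [h3, card_map, card_univ, Fintype.card_fin]
    have h4 := Finset.card_compl X
    rw [h1, card_image_of_injective _ hp, h2, Fintype.card_fin] at h4
    have h5 := Finset.card_le_univ X
    rw [Fintype.card_fin] at h5
    omega
  have hJc : ∀ t, t < 8 * h → (J t).card + (8 * h - t) = m := by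
    intro t ht
    have h1 : (J t)ᶜ = (univ.filter (fun i : Fin (8 * h) => (⟨t, ht⟩ : Fin (8 * h)) ≤ i)).image p := by
      ext x
      simp only [hJ, mem_compl, mem_filter, mem_univ, true_and, mem_image]
      push Not
      constructor
      · rintro ⟨i, h1, h2⟩; exact ⟨i, h1, h2.symm⟩
      · rintro ⟨i, h1, h2⟩; exact ⟨i, h1, h2.symm⟩
    have h2 : (univ.filter (fun i : Fin (8 * h) => (⟨t, ht⟩ : Fin (8 * h)) ≤ i)).card = 8 * h - t := by
      have : (univ.filter (fun i : Fin (8 * h) => (⟨t, ht⟩ : Fin (8 * h)) ≤ i)) =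
          Finset.Ici (⟨t, ht⟩ : Fin (8 * h)) := by
        ext x; simp
      rw [this, Fin.card_Ici]
    have h4 := Finset.card_compl (J t)
    rw [h1, card_image_of_injective _ hp, h2, Fintype.card_fin] at h4
    have h5 := Finset.card_le_univ (J t)
    rw [Fintype.card_fin] at h5
    omega
  have hmain := card_all_near X S φ hφ h q J T
    (by
      intro t ht hx
      rw [hT, Finset.mem_Ico] at ht
      rw [hqe t (by omega), hX, mem_filter] at hx
      exact hx.2 ⟨t, by omega⟩ (by simp; omega) rfl)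
    (by
      intro t ht
      rw [hT, Finset.mem_Ico] at ht
      have := hJc t (by omega)
      omega)
    (by
      intro t ht t' ht' htt
      rw [hT, Finset.mem_Ico] at ht ht'
      rw [hqe t (by omega), hqe t' (by omega)]
      constructor
      · intro e
        have := hp e
        simp at this
        omega
      · intro hJ'
        rw [hJ, mem_filter] at hJ'
        exact hJ'.2 ⟨t', by omega⟩ (by simp; omega) rfl)
  have hTc : T.card = 2 * h := by rw [hT, Nat.card_Ico]; omega
  rw [hTc] at hmain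
  refine le_trans ?_ hmain
  rw [Nat.cast_le]
  apply Finset.card_le_card
  intro ω hω
  rw [mem_filter] at hω ⊢
  refine ⟨mem_univ _, fun t ht => ?_⟩
  rw [hT, Finset.mem_Ico] at ht
  have h1 := hω.2 X ⟨t, by omega⟩ (by simpa using ht.1)
  rw [hqe t (by omega)]
  exact h1

open scoped Classical in
/-- The union bound. -/
theorem card_small_le {h : ℕ} (hh : 0 < h) (s φ : ℝ) (hs : 0 ≤ s) (hφ : 0 ≤ φ) :
    ((univ.filter (fun ω : Sym2 (Fin m) → Bool => Small (8 * h) s ω)).card : ℝ) ≤
      (m : ℝ) ^ (8 * h) * rho m h φ (s * m / (h + 1)) ^ (2 * h) *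
        Fintype.card (Sym2 (Fin m) → Bool) := by
  classical
  set S : ℝ := s * m / (h + 1) with hS
  set Bad : (Fin (8 * h) → Fin m) → Finset (Sym2 (Fin m) → Bool) := fun p =>
    univ.filter (fun ω => Function.Injective p ∧ ∀ (X : Finset (Fin m)) (j : Fin (8 * h)), h ≤ (j : ℕ) →
      Near (p j) (univ.filter fun i => ∀ j' : Fin (8 * h), j ≤ j' → i ≠ p j') X S ω) with hBad
  have hsub : univ.filter (fun ω : Sym2 (Fin m) → Bool => Small (8 * h) s ω) ⊆
      (univ : Finset (Fin (8 * h) → Fin m)).biUnion Bad := by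
    intro ω hω
    obtain ⟨V, hV, hVs⟩ := (mem_filter.1 hω).2
    obtain ⟨p, hp, hpn⟩ := exists_near ω V (8 * h) hV s hs hVs
    rw [mem_biUnion]
    refine ⟨p, mem_univ _, ?_⟩
    rw [hBad, mem_filter]
    refine ⟨mem_univ _, hp, fun X j hj => near_mono (hpn X j) ?_⟩
    rw [hS]
    have : ((h : ℝ) + 1) ≤ ((j : ℕ) : ℝ) + 1 := by
      have : (h : ℝ) ≤ ((j : ℕ) : ℝ) := by exact_mod_cast hj
      linarith
    gcongr
  have h1 : ((univ.filter (fun ω : Sym2 (Fin m) → Bool => Small (8 * h) s ω)).card : ℝ) ≤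
      ∑ p : Fin (8 * h) → Fin m, ((Bad p).card : ℝ) := by
    calc ((univ.filter (fun ω : Sym2 (Fin m) → Bool => Small (8 * h) s ω)).card : ℝ)
        ≤ (((univ : Finset (Fin (8 * h) → Fin m)).biUnion Bad).card : ℝ) := by
          exact_mod_cast Finset.card_le_card hsub
      _ ≤ ((∑ p : Fin (8 * h) → Fin m, (Bad p).card : ℕ) : ℝ) := by
          exact_mod_cast Finset.card_biUnion_le
      _ = _ := by push_cast; rfl
  refine h1.trans ?_
  have h2 : ∀ p : Fin (8 * h) → Fin m, ((Bad p).card : ℝ) ≤
      rho m h φ S ^ (2 * h) * Fintype.card (Sym2 (Fin m) → Bool) := by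
    intro p
    by_cases hp : Function.Injective p
    · refine le_trans (le_of_eq ?_) (card_pivots hh p hp φ S hφ)
      congr 2
      ext ω
      simp [hBad, hp]
    · have : Bad p = ∅ := by
        ext ω
        simp [hBad, hp]
      rw [this]
      have := rho_nonneg m h φ S
      simp only [card_empty, Nat.cast_zero]
      positivity
  calc ∑ p : Fin (8 * h) → Fin m, ((Bad p).card : ℝ)
      ≤ ∑ _p : Fin (8 * h) → Fin m, rho m h φ S ^ (2 * h) * Fintype.card (Sym2 (Fin m) → Bool) :=
        Finset.sum_le_sum fun p _ => h2 p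
    _ = _ := by
        rw [Finset.sum_const, Finset.card_univ, Fintype.card_fun, Fintype.card_fin, Fintype.card_fin,
          nsmul_eq_mul]
        push_cast
        ring

end Pool.Agent.Lib.SpG.Count
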