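import Mathlib

/-!
# Lower bound for the determinant of a positive definite matrix by successive minima of the quadratic form
-/

set_option autoImplicit false
open Matrix

namespace Pool.Agent.Lib.SpG.DetTool

/-- Schur complement step. -/
theorem det_step {n : ℕ} (A : Matrix (Fin (n + 1)) (Fin (n + 1)) ℝ) (hA : A.PosDef) :
    ∃ x : Fin (n + 1) → ℝ, x (Fin.last n) = 1 ∧
      A.det = (A.submatrix Fin.castSucc Fin.castSucc).det * (x ⬝ᵥ A *ᵥ x) := by
  classical
  set B : Matrix (Fin n) (Fin n) ℝ := A.submatrix Fin.castSucc Fin.castSucc with hB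
  have hBp : B.PosDef := hA.submatrix (Fin.castSucc_injective n)
  have hBu : IsUnit B.det := hBp.det_pos.ne'.isUnit
  let _ : Invertible B := B.invertibleOfIsUnitDet hBu
  set a : Fin n → ℝ := fun i => A i.castSucc (Fin.last n) with ha
  set d : ℝ := A (Fin.last n) (Fin.last n) with hd
  have hsymm : ∀ i j, A i j = A j i := by
    intro i j
    have := hA.isHermitian.apply i j
    simpa using this.symm
  set y : Fin n → ℝ := -(B⁻¹ *ᵥ a) with hy
  have hBy : B *ᵥ y = -a := by
    rw [hy, Matrix.mulVec_neg, Matrix.mulVec_mulVec, Matrix.mul_nonsing_inv _ hBu, Matrix.one_mulVec]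
  refine ⟨Fin.snoc (α := fun _ => ℝ) y 1, by simp, ?_⟩
  have hAx1 : ∀ i : Fin n, (A *ᵥ (Fin.snoc (α := fun _ => ℝ) y 1)) i.castSucc = 0 := by
    intro i
    have h1 : (B *ᵥ y) i = -a i := by rw [hBy]; rfl
    simp only [Matrix.mulVec, dotProduct] at h1 ⊢
    rw [Fin.sum_univ_castSucc]
    simp only [Fin.snoc_castSucc, Fin.snoc_last, mul_one]
    have h2 : ∑ j : Fin n, A i.castSucc j.castSucc * y j = ∑ j, B i j * y j := rfl
    rw [h2, h1]
    simp [ha]
  have hAx2 : (A *ᵥ (Fin.snoc (α := fun _ => ℝ) y 1)) (Fin.last n) = a ⬝ᵥ y + d := by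
    simp only [Matrix.mulVec, dotProduct]
    rw [Fin.sum_univ_castSucc]
    simp only [Fin.snoc_castSucc, Fin.snoc_last, mul_one]
    congr 1
    refine Finset.sum_congr rfl fun j _ => ?_
    rw [hsymm]
  have hq : (Fin.snoc (α := fun _ => ℝ) y 1 : Fin (n + 1) → ℝ) ⬝ᵥ
      A *ᵥ (Fin.snoc (α := fun _ => ℝ) y 1) = a ⬝ᵥ y + d := by
    rw [dotProduct, Fin.sum_univ_castSucc]
    simp only [hAx1, hAx2, mul_zero, Finset.sum_const_zero, zero_add, Fin.snoc_last, one_mul]
  rw [hq]
  set e : Fin n ⊕ Fin 1 ≃ Fin (n + 1) := finSumFinEquiv with he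
  have hel : ∀ i : Fin n, e (Sum.inl i) = i.castSucc := fun i => by
    rw [he, finSumFinEquiv_apply_left]; rfl
  have her : ∀ i : Fin 1, e (Sum.inr i) = Fin.last n := fun i => by
    rw [he, finSumFinEquiv_apply_right]
    apply Fin.ext
    simp
  have h1 : A.submatrix e e = Matrix.fromBlocks B (Matrix.of fun i (_ : Fin 1) => a i)
      (Matrix.of fun (_ : Fin 1) i => a i) (Matrix.of fun (_ _ : Fin 1) => d) := by
    ext i j
    rcases i with i | i <;> rcases j with j | j
    · simp [hel, hB]
    · simp [hel, her, ha]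
    · simp [hel, her, ha, hsymm (Fin.last n)]
    · simp [her, hd]
  have h2 : A.det = (A.submatrix e e).det := (Matrix.det_submatrix_equiv_self e A).symm
  rw [h2, h1, Matrix.det_fromBlocks₁₁]
  congr 1
  rw [Matrix.det_fin_one]
  simp only [Matrix.sub_apply, Matrix.of_apply, Matrix.mul_apply]
  have h3 : a ⬝ᵥ y = -∑ j, (∑ k, a k * (⅟B) k j) * a j := by
    rw [hy, dotProduct_neg, Matrix.dotProduct_mulVec]
    rfl
  rw [h3]
  ring

/-- Determinants of positive definite matrices are at least the product of the successive minima. -/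
theorem det_ge_prod (n : ℕ) : ∀ (A : Matrix (Fin n) (Fin n) ℝ), A.PosDef → ∀ (t : Fin n → ℝ),
    (∀ i, 0 ≤ t i) →
    (∀ (i : Fin n) (x : Fin n → ℝ), x i = 1 → (∀ j, i < j → x j = 0) → t i ≤ x ⬝ᵥ A *ᵥ x) →
    ∏ i, t i ≤ A.det := by
  induction n with
  | zero => intro A _ t _ _; simp
  | succ n ih =>
    intro A hA t ht0 ht
    obtain ⟨x, hx1, hx⟩ := det_step A hA
    have hBp : (A.submatrix Fin.castSucc Fin.castSucc).PosDef :=
      hA.submatrix (Fin.castSucc_injective n)
    have h1 := ih (A.submatrix Fin.castSucc Fin.castSucc) hBp (fun i => t i.castSucc)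
      (fun i => ht0 _) (by
        intro i y hy1 hy0
        have h2 := ht i.castSucc (Fin.snoc (α := fun _ => ℝ) y 0) (by simpa using hy1) (by
          intro j hj
          revert hj
          refine Fin.lastCases ?_ (fun j => ?_) j
          · intro _; simp
          · intro hj
            have : i < j := by simpa using hj
            simpa using hy0 j this)
        refine h2.trans (le_of_eq ?_)
        simp only [dotProduct, Matrix.mulVec, Fin.sum_univ_castSucc, Fin.snoc_castSucc,
          Fin.snoc_last, mul_zero, add_zero, zero_mul, Matrix.submatrix_apply])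
    have h3 := ht (Fin.last n) x hx1 (fun j hj => absurd hj (not_lt.2 (Fin.le_last j)))
    rw [hx, Fin.prod_univ_castSucc]
    exact mul_le_mul h1 h3 (ht0 _) hBp.det_pos.le

end Pool.Agent.Lib.SpG.DetTool
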