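import Pool.Agent.Lib.SpG.Bound
import Pool.Agent.Lib.SpG.DetTool

/-!
# The determinant of `1 + D^2` is large for a random symmetric 0/1 matrix `D`

`det (1 + D^2) ≥ (m/4000)^(m/8)` outside a fraction `exp (-m^2/1000)` of the symmetric 0/1 matrices of size
`m ≥ 4000` with zero diagonal.
-/

set_option autoImplicit false
open Module Finset SingG

namespace Pool.Agent.Lib.SpG.DetLow

open Pool.Agent.Lib.SpG.Col Pool.Agent.Lib.SpG.Count Pool.Agent.Lib.SpG.Bound Pool.Agent.Lib.SpG.DetTool

variable {m : ℕ}

/-- The matrix coded by the bits. -/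
def mat (ω : Sym2 (Fin m) → Bool) : Matrix (Fin m) (Fin m) ℝ := Matrix.of fun i j => ent ω i j

theorem ent_symm (ω : Sym2 (Fin m) → Bool) (i j : Fin m) : ent ω i j = ent ω j i := by
  unfold ent
  by_cases h : i = j
  · subst h; rfl
  · have h' : ¬ j = i := fun e => h e.symm
    rw [if_neg h, if_neg h', Sym2.eq_swap]

theorem mat_transpose (ω : Sym2 (Fin m) → Bool) : (mat ω).transpose = mat ω := by
  ext i j
  simp [mat, ent_symm ω j i]

theorem mat_mulVec (ω : Sym2 (Fin m) → Bool) (x : Fin m → ℝ) (i : Fin m) :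
    (mat ω).mulVec x i = row ω i x := rfl

theorem quad (ω : Sym2 (Fin m) → Bool) (x : Fin m → ℝ) :
    x ⬝ᵥ ((1 + mat ω * mat ω).mulVec x) = ∑ i, x i ^ 2 + ∑ i, row ω i x ^ 2 := by
  rw [Matrix.add_mulVec, dotProduct_add, Matrix.one_mulVec, ← Matrix.mulVec_mulVec]
  congr 1
  · simp [dotProduct, pow_two]
  · rw [Matrix.dotProduct_mulVec, ← Matrix.mulVec_transpose, mat_transpose]
    simp [dotProduct, mat_mulVec, pow_two]

theorem posDef (ω : Sym2 (Fin m) → Bool) : (1 + mat ω * mat ω).PosDef := by
  refine Matrix.PosDef.of_dotProduct_mulVec_pos ?_ ?_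
  · unfold Matrix.IsHermitian
    rw [Matrix.conjTranspose_add, Matrix.conjTranspose_one, Matrix.conjTranspose_mul]
    congr 1
    have : (mat ω).conjTranspose = mat ω := by
      ext i j
      simp [mat, ent_symm ω j i]
    rw [this]
  · intro x hx
    simp only [star_trivial]
    rw [quad]
    have h1 : 0 < ∑ i, x i ^ 2 := by
      obtain ⟨i, hi⟩ := Function.ne_iff.1 hx
      refine Finset.sum_pos' (fun _ _ => sq_nonneg _) ⟨i, mem_univ _, ?_⟩
      have : x i ≠ 0 := hi
      positivity
    have h2 : 0 ≤ ∑ i, row ω i x ^ 2 := Finset.sum_nonneg fun _ _ => sq_nonneg _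
    linarith

open scoped Classical in
/-- The deterministic part. -/
theorem det_ge (ω : Sym2 (Fin m) → Bool) (a b : ℕ) (hab : b ≤ a) (ham : a ≤ m) (X : Finset (Fin m)) (S : ℝ)
    (hS : 1 ≤ S)
    (hb : (univ.filter fun i : Fin m => (i : ℕ) < a ∧ Near i (univ.filter fun l => l < i) X S ω).card ≤ b) :
    S ^ (a - b) ≤ (1 + mat ω * mat ω).det := by
  classical
  set N := univ.filter fun i : Fin m => (i : ℕ) < a ∧ Near i (univ.filter fun l => l < i) X S ω with hN
  set I := univ.filter fun i : Fin m => (i : ℕ) < a with hI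
  set t : Fin m → ℝ := fun i => if i ∈ I \ N then S else 1 with ht
  have h1 := det_ge_prod m (1 + mat ω * mat ω) (posDef ω) t
    (fun i => by rw [ht]; simp only; split_ifs <;> linarith)
    (by
      intro i x hxi hx0
      rw [quad]
      have h2 : (1 : ℝ) ≤ ∑ i, x i ^ 2 := by
        have := Finset.single_le_sum (f := fun i => x i ^ 2) (fun _ _ => sq_nonneg _) (mem_univ i)
        simpa [hxi] using this
      have h3 : 0 ≤ ∑ i, row ω i x ^ 2 := Finset.sum_nonneg fun _ _ => sq_nonneg _
      rw [ht]
      simp only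
      split_ifs with hi
      · rw [mem_sdiff] at hi
        have hi1 : (i : ℕ) < a := by
          have := hi.1
          rw [hI, mem_filter] at this
          exact this.2
        have hi2 : ¬ Near i (univ.filter fun l => l < i) X S ω := by
          intro h
          apply hi.2
          rw [hN, mem_filter]
          exact ⟨mem_univ _, hi1, h⟩
        have h4 : S < ∑ v ∈ X, row ω v x ^ 2 := by
          by_contra hcon
          push Not at hcon
          apply hi2
          refine ⟨x, hxi, fun l hl hlJ => ?_, hcon⟩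
          apply hx0
          rw [mem_filter] at hlJ
          push Not at hlJ
          exact lt_of_le_of_ne (hlJ (mem_univ _)) (Ne.symm hl)
        have h5 : ∑ v ∈ X, row ω v x ^ 2 ≤ ∑ i, row ω i x ^ 2 :=
          Finset.sum_le_sum_of_subset_of_nonneg (Finset.subset_univ _) fun _ _ _ => sq_nonneg _
        linarith
      · linarith)
  refine le_trans ?_ h1
  rw [ht]
  rw [Finset.prod_ite]
  simp only [prod_const, mul_one, one_pow]
  apply pow_le_pow_right₀ hS
  have h2 : (univ.filter fun i : Fin m => i ∈ I \ N) = I \ N := by ext; simp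
  rw [h2]
  have h3 : I.card = a := by
    have h4 : I = (univ : Finset (Fin a)).map (Fin.castLEEmb ham) := by
      ext x
      simp only [hI, mem_filter, mem_univ, true_and, mem_map, Fin.castLEEmb_apply]
      constructor
      · intro hx
        exact ⟨⟨x, hx⟩, rfl⟩
      · rintro ⟨y, rfl⟩
        exact y.2
    rw [h4, card_map, card_univ, Fintype.card_fin]
  have h5 : I.card - N.card ≤ (I \ N).card := Finset.le_card_sdiff _ _
  omega

open scoped Classical in
/-- The number of matrices with many near columns. -/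
theorem card_many_near (a b r : ℕ) (ham : a ≤ m) (X : Finset (Fin m)) (S φ : ℝ) (hφ : 0 ≤ φ)
    (hX : ∀ x ∈ X, a ≤ (x : ℕ)) (hr : r + a ≤ X.card) :
    ((univ.filter (fun ω : Sym2 (Fin m) → Bool => b <
      (univ.filter fun i : Fin m => (i : ℕ) < a ∧ Near i (univ.filter fun l => l < i) X S ω).card)).card : ℝ) ≤
      2 ^ a * rho m r φ S ^ (b + 1) * Fintype.card (Sym2 (Fin m) → Bool) := by
  classical
  rcases Nat.eq_zero_or_pos a with ha0 | ha0
  · have : (univ.filter (fun ω : Sym2 (Fin m) → Bool => b <
      (univ.filter fun i : Fin m => (i : ℕ) < a ∧ Near i (univ.filter fun l => l < i) X S ω).card)) = ∅ := by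
      ext ω
      simp [ha0]
    rw [this]
    have := rho_nonneg m r φ S
    simp only [card_empty, Nat.cast_zero]
    positivity
  have hm0 : 0 < m := by omega
  set q : ℕ → Fin m := fun t => if ht : t < m then ⟨t, ht⟩ else ⟨0, hm0⟩ with hq
  have hqe : ∀ t (ht : t < m), q t = ⟨t, ht⟩ := fun t ht => by rw [hq]; simp [ht]
  set Ev : Finset ℕ → Finset (Sym2 (Fin m) → Bool) := fun T =>
    univ.filter (fun ω => ∀ t ∈ T, Near (q t) (univ.filter fun l => (l : ℕ) < t) X S ω) with hEv
  have hsub : univ.filter (fun ω : Sym2 (Fin m) → Bool => b <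
      (univ.filter fun i : Fin m => (i : ℕ) < a ∧ Near i (univ.filter fun l => l < i) X S ω).card) ⊆
      ((Finset.range a).powersetCard (b + 1)).biUnion Ev := by
    intro ω hω
    have h1 := (mem_filter.1 hω).2
    set N := univ.filter fun i : Fin m => (i : ℕ) < a ∧ Near i (univ.filter fun l => l < i) X S ω with hN
    obtain ⟨T', hT', hT'c⟩ := Finset.exists_subset_card_eq (s := N) (n := b + 1) h1
    rw [mem_biUnion]
    refine ⟨T'.image (fun i : Fin m => (i : ℕ)), ?_, ?_⟩
    · rw [mem_powersetCard]
      constructor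
      · intro t ht
        obtain ⟨i, hi, rfl⟩ := mem_image.1 ht
        have := hT' hi
        rw [hN, mem_filter] at this
        exact mem_range.2 this.2.1
      · rw [card_image_of_injective _ Fin.val_injective, hT'c]
    · rw [hEv, mem_filter]
      refine ⟨mem_univ _, fun t ht => ?_⟩
      obtain ⟨i, hi, rfl⟩ := mem_image.1 ht
      have := hT' hi
      rw [hN, mem_filter] at this
      rw [hqe _ i.2]
      exact this.2.2
  have h1 : ∀ T ∈ (Finset.range a).powersetCard (b + 1), ((Ev T).card : ℝ) ≤
      rho m r φ S ^ (b + 1) * Fintype.card (Sym2 (Fin m) → Bool) := by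
    intro T hT
    rw [mem_powersetCard] at hT
    have hlt : ∀ t ∈ T, t < a := fun t ht => mem_range.1 (hT.1 ht)
    have h2 := card_all_near X S φ hφ r q (fun t => univ.filter fun l : Fin m => (l : ℕ) < t) T
      (by
        intro t ht hx
        have h3 := hX _ hx
        rw [hqe t (by have := hlt t ht; omega)] at h3
        have := hlt t ht
        simp at h3
        omega)
      (by
        intro t ht
        have h3 := hlt t ht
        have h4 : (univ.filter fun l : Fin m => (l : ℕ) < t).card ≤ t := by
          have h5 : (univ.filter fun l : Fin m => (l : ℕ) < t).card =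
              ((univ.filter fun l : Fin m => (l : ℕ) < t).image (fun l : Fin m => (l : ℕ))).card :=
            (card_image_of_injective _ Fin.val_injective).symm
          rw [h5]
          calc _ ≤ (Finset.range t).card := by
                apply Finset.card_le_card
                intro x hx
                obtain ⟨l, hl, rfl⟩ := mem_image.1 hx
                exact mem_range.2 (mem_filter.1 hl).2
            _ = t := card_range t
        omega)
      (by
        intro t ht t' ht' htt
        have h3 := hlt t ht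
        have h4 := hlt t' ht'
        rw [hqe t (by omega), hqe t' (by omega)]
        constructor
        · intro e
          simp at e
          omega
        · intro h
          rw [mem_filter] at h
          have := h.2
          simp at this
          omega)
    rw [hT.2] at h2
    exact h2
  calc ((univ.filter (fun ω : Sym2 (Fin m) → Bool => b <
      (univ.filter fun i : Fin m => (i : ℕ) < a ∧ Near i (univ.filter fun l => l < i) X S ω).card)).card : ℝ)
      ≤ ((((Finset.range a).powersetCard (b + 1)).biUnion Ev).card : ℝ) := by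
        exact_mod_cast Finset.card_le_card hsub
    _ ≤ ((∑ T ∈ (Finset.range a).powersetCard (b + 1), (Ev T).card : ℕ) : ℝ) := by
        exact_mod_cast Finset.card_biUnion_le
    _ = ∑ T ∈ (Finset.range a).powersetCard (b + 1), ((Ev T).card : ℝ) := by push_cast; rfl
    _ ≤ ∑ _T ∈ (Finset.range a).powersetCard (b + 1),
          rho m r φ S ^ (b + 1) * Fintype.card (Sym2 (Fin m) → Bool) := Finset.sum_le_sum h1
    _ = ((Finset.range a).powersetCard (b + 1)).card *
          (rho m r φ S ^ (b + 1) * Fintype.card (Sym2 (Fin m) → Bool)) := by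
        rw [Finset.sum_const, nsmul_eq_mul]
    _ ≤ 2 ^ a * (rho m r φ S ^ (b + 1) * Fintype.card (Sym2 (Fin m) → Bool)) := by
        have h3 : (((Finset.range a).powersetCard (b + 1)).card : ℝ) ≤ 2 ^ a := by
          rw [card_powersetCard, card_range]
          exact_mod_cast Nat.choose_le_two_pow a (b + 1)
        have := rho_nonneg m r φ S
        exact mul_le_mul_of_nonneg_right h3 (by positivity)
    _ = _ := by ring

open scoped Classical in
/-- `det (1 + D^2)` is large: the count over bits. -/
theorem bits_det_low (hm : 4000 ≤ m) :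
    ((univ.filter (fun ω : Sym2 (Fin m) → Bool =>
      (1 + mat ω * mat ω).det < ((m : ℝ) / 4000) ^ (m / 8))).card : ℝ) ≤
      Real.exp (-((m : ℝ) ^ 2 / 1000)) * Fintype.card (Sym2 (Fin m) → Bool) := by
  classical
  set X : Finset (Fin m) := univ.filter (fun x => m / 2 ≤ (x : ℕ)) with hX
  have hXc : X.card = m - m / 2 := by
    have h1 : Xᶜ = (univ : Finset (Fin (m / 2))).map (Fin.castLEEmb (by omega)) := by
      ext x
      simp only [hX, mem_compl, mem_filter, mem_univ, true_and, mem_map, Fin.castLEEmb_apply, not_le]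
      constructor
      · intro hx
        exact ⟨⟨x, hx⟩, rfl⟩
      · rintro ⟨y, rfl⟩
        exact y.2
    have h4 := Finset.card_compl X
    rw [h1, card_map, card_univ, Fintype.card_fin, Fintype.card_fin] at h4
    have h5 := Finset.card_le_univ X
    rw [Fintype.card_fin] at h5
    omega
  set S : ℝ := (m : ℝ) / 4000 with hS
  have hmR : (4000 : ℝ) ≤ m := by exact_mod_cast hm
  have hS1 : 1 ≤ S := by rw [hS]; linarith
  set a := m / 4 with ha
  set b := a / 2 with hb
  have ham : a ≤ m := by omega
  have h1 := card_many_near (m := m) a b a ham X S 40 (by norm_num)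
    (fun x hx => by
      rw [hX, mem_filter] at hx
      have := hx.2
      omega)
    (by omega)
  have hsub : univ.filter (fun ω : Sym2 (Fin m) → Bool =>
      (1 + mat ω * mat ω).det < ((m : ℝ) / 4000) ^ (m / 8)) ⊆
      univ.filter (fun ω : Sym2 (Fin m) → Bool => b <
      (univ.filter fun i : Fin m => (i : ℕ) < a ∧ Near i (univ.filter fun l => l < i) X S ω).card) := by
    intro ω hω
    rw [mem_filter] at hω ⊢
    refine ⟨mem_univ _, ?_⟩
    by_contra hcon
    push Not at hcon
    have h2 := det_ge ω a b (by omega) ham X S hS1 hcon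
    have h3 : S ^ (m / 8) ≤ S ^ (a - b) := pow_le_pow_right₀ hS1 (by omega)
    exact absurd (h3.trans h2) (not_le.2 hω.2)
  have h2 : ((univ.filter (fun ω : Sym2 (Fin m) → Bool =>
      (1 + mat ω * mat ω).det < ((m : ℝ) / 4000) ^ (m / 8))).card : ℝ) ≤
      2 ^ a * rho m a 40 S ^ (b + 1) * Fintype.card (Sym2 (Fin m) → Bool) :=
    le_trans (by exact_mod_cast Finset.card_le_card hsub) h1
  refine h2.trans ?_
  apply mul_le_mul_of_nonneg_right _ (by positivity)
  -- numerics
  have ha5 : (m : ℝ) / 5 ≤ a := by
    have : m ≤ 5 * a := by omega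
    have h3 : (m : ℝ) ≤ 5 * a := by exact_mod_cast this
    linarith
  have ha4 : (a : ℝ) ≤ m / 4 := by
    have : 4 * a ≤ m := by omega
    have h3 : (4 : ℝ) * a ≤ m := by exact_mod_cast this
    linarith
  have ha0 : (0 : ℝ) < a := by linarith
  have hrho := rho_le (m := m) (h := a) (by omega) (by omega) 40 S (by
    rw [div_le_iff₀ ha0]
    linarith)
  have h3 : rho m a 40 S ≤ Real.exp (-(26 / 1000 * (m : ℝ))) := by
    refine hrho.trans (Real.exp_le_exp.2 ?_)
    rw [hS]
    linarith
  have h4 : (m : ℝ) / 10 ≤ ((b + 1 : ℕ) : ℝ) := by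
    have : m ≤ 10 * (b + 1) := by omega
    have h3 : (m : ℝ) ≤ 10 * ((b + 1 : ℕ) : ℝ) := by exact_mod_cast this
    linarith
  have h5 : rho m a 40 S ^ (b + 1) ≤ Real.exp (-(26 / 10000 * (m : ℝ) ^ 2)) := by
    calc rho m a 40 S ^ (b + 1) ≤ Real.exp (-(26 / 1000 * (m : ℝ))) ^ (b + 1) :=
          pow_le_pow_left₀ (rho_nonneg _ _ _ _) h3 _
      _ = Real.exp (((b + 1 : ℕ) : ℝ) * (-(26 / 1000 * (m : ℝ)))) := (Real.exp_nat_mul _ _).symm
      _ ≤ _ := by
          apply Real.exp_le_exp.2
          nlinarith
  have h6 : (2 : ℝ) ^ a ≤ Real.exp (a : ℝ) := by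
    rw [← Real.exp_one_pow]
    apply pow_le_pow_left₀ (by norm_num)
    have := Real.exp_one_gt_d9
    linarith
  calc (2 : ℝ) ^ a * rho m a 40 S ^ (b + 1)
      ≤ Real.exp (a : ℝ) * Real.exp (-(26 / 10000 * (m : ℝ) ^ 2)) :=
        mul_le_mul h6 h5 (pow_nonneg (rho_nonneg _ _ _ _) _) (Real.exp_pos _).le
    _ = Real.exp ((a : ℝ) - 26 / 10000 * (m : ℝ) ^ 2) := by
        rw [← Real.exp_add, sub_eq_add_neg]
    _ ≤ Real.exp (-((m : ℝ) ^ 2 / 1000)) := by
        apply Real.exp_le_exp.2
        nlinarith

/-- `det (1 + A^2)` is large for the adjacency matrix `A` of a random graph. -/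
theorem graph_det_low (hm : 4000 ≤ m) :
    (Nat.card {G : SimpleGraph (Fin m) //
      (1 + (@SimpleGraph.adjMatrix ℝ _ G (Classical.decRel _) _ _) *
        (@SimpleGraph.adjMatrix ℝ _ G (Classical.decRel _) _ _)).det < ((m : ℝ) / 4000) ^ (m / 8)} : ℝ) ≤
      Real.exp (-((m : ℝ) ^ 2 / 1000)) * Nat.card (SimpleGraph (Fin m)) := by
  classical
  refine transfer _ _ (univ.filter (fun ω : Sym2 (Fin m) → Bool =>
      (1 + mat ω * mat ω).det < ((m : ℝ) / 4000) ^ (m / 8))) ?_ (bits_det_low hm)
  intro ω hω
  rw [mem_filter]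
  refine ⟨mem_univ _, ?_⟩
  have : mat ω = @SimpleGraph.adjMatrix ℝ _ (gr ω) (Classical.decRel _) _ _ := by
    ext i j
    simp only [mat, Matrix.of_apply]
    rw [ent_eq]
  rw [this]
  exact hω

end Pool.Agent.Lib.SpG.DetLow
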