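import Pool.Agent.Lib.SpG.Greedy

/-!
# Random 0/1 vectors are far from a subspace of linear codimension (spectral count, part 2)
-/

set_option autoImplicit false
open Module Finset

namespace Pool.Agent.Lib.SpG.Dist

open Pool.Agent.Lib.SpG.Greedy

variable {ι : Type*} [Fintype ι] [DecidableEq ι]

/-- The bit as a real number. -/
def bit (b : Bool) : ℝ := if b then 1 else 0

private theorem flip_sum (p : ι) (G : (ι → Bool) → ℝ) :
    ∑ y, G (Function.update y p (!y p)) = ∑ y, G y := by
  let e : (ι → Bool) ≃ (ι → Bool) :=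
    { toFun := fun y => Function.update y p (!y p)
      invFun := fun y => Function.update y p (!y p)
      left_inv := by
        intro y
        funext i
        by_cases h : i = p
        · subst h; simp
        · simp [h]
      right_inv := by
        intro y
        funext i
        by_cases h : i = p
        · subst h; simp
        · simp [h] }
  exact Equiv.sum_comp e G

private theorem two_exp {φ θ a b : ℝ} (hφ : 0 ≤ φ) (h : θ ≤ (a - b) ^ 2) :
    Real.exp (-(φ * a ^ 2)) + Real.exp (-(φ * b ^ 2)) ≤ 1 + Real.exp (-(φ * θ / 4)) := by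
  have key : ∀ x y : ℝ, θ ≤ (x - y) ^ 2 → y ^ 2 ≤ x ^ 2 →
      Real.exp (-(φ * x ^ 2)) + Real.exp (-(φ * y ^ 2)) ≤ 1 + Real.exp (-(φ * θ / 4)) := by
    intro x y hxy hle
    have h1 : θ / 4 ≤ x ^ 2 := by nlinarith [sq_nonneg (x + y)]
    have h2 : Real.exp (-(φ * x ^ 2)) ≤ Real.exp (-(φ * θ / 4)) := by
      apply Real.exp_le_exp.2
      have : φ * (θ / 4) ≤ φ * x ^ 2 := mul_le_mul_of_nonneg_left h1 hφ
      linarith
    have h3 : Real.exp (-(φ * y ^ 2)) ≤ 1 := by
      apply Real.exp_le_one_iff.2
      have : 0 ≤ φ * y ^ 2 := by positivity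
      linarith
    linarith
  rcases le_total (b ^ 2) (a ^ 2) with hab | hab
  · exact key a b h hab
  · have := key b a (by nlinarith) hab
    linarith

/-- Exponential moment of the squared distance for a triangular family of linear forms. -/
theorem mgf (φ : ℝ) (hφ : 0 ≤ φ) (r : ℕ) : ∀ (f : Fin r → ι → ℝ) (p : Fin r → ι) (a θ : Fin r → ℝ),
    (∀ j, θ j ≤ f j (p j) ^ 2) → (∀ j j' : Fin r, j < j' → f j (p j') = 0) →
    ∑ y : ι → Bool, Real.exp (-(φ * ∑ j, (∑ i, f j i * bit (y i) - a j) ^ 2)) ≤
      2 ^ Fintype.card ι * ∏ j, ((1 + Real.exp (-(φ * θ j / 4))) / 2) := by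
  induction r with
  | zero =>
    intro f p a θ _ _
    simp
  | succ r ih =>
    intro f p a θ hθ htri
    set P := p (Fin.last r) with hP
    set L : (ι → Bool) → ℝ := fun y => ∑ i, f (Fin.last r) i * bit (y i) - a (Fin.last r) with hL
    set F : (ι → Bool) → ℝ := fun y =>
      Real.exp (-(φ * ∑ j : Fin r, (∑ i, f j.castSucc i * bit (y i) - a j.castSucc) ^ 2)) with hF
    set H : (ι → Bool) → ℝ := fun y => Real.exp (-(φ * L y ^ 2)) with hH
    have h1 : ∀ y, Real.exp (-(φ * ∑ j, (∑ i, f j i * bit (y i) - a j) ^ 2)) = F y * H y := by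
      intro y
      rw [hF, hH, ← Real.exp_add]
      congr 1
      rw [Fin.sum_univ_castSucc]
      ring
    have hFinv : ∀ y, F (Function.update y P (!y P)) = F y := by
      intro y
      rw [hF]
      simp only
      congr 2
      congr 1
      refine Finset.sum_congr rfl fun j _ => ?_
      congr 2
      refine Finset.sum_congr rfl fun i _ => ?_
      by_cases h : i = P
      · rw [h, hP, htri j.castSucc (Fin.last r) (Fin.castSucc_lt_last j)]
        simp
      · rw [Function.update_of_ne h]
    have hHH : ∀ y, H y + H (Function.update y P (!y P)) ≤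
        1 + Real.exp (-(φ * θ (Fin.last r) / 4)) := by
      intro y
      apply two_exp hφ
      refine le_trans (hθ (Fin.last r)) ?_
      have : L y - L (Function.update y P (!y P)) = f (Fin.last r) P * (bit (y P) - bit (!y P)) := by
        rw [hL]
        simp only
        have h2 : ∑ i, f (Fin.last r) i * bit (y i) -
            ∑ i, f (Fin.last r) i * bit (Function.update y P (!y P) i) =
            f (Fin.last r) P * (bit (y P) - bit (!y P)) := by
          rw [← Finset.sum_sub_distrib, Finset.sum_eq_single P]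
          · simp; ring
          · intro i _ hi
            rw [Function.update_of_ne hi]; ring
          · intro h; exact absurd (Finset.mem_univ _) h
        linarith
      rw [this, mul_pow]
      have h3 : (bit (y P) - bit (!y P)) ^ 2 = 1 := by
        cases y P <;> simp [bit]
      rw [h3, mul_one]
    have h4 : ∑ y, F y * H y = ∑ y, F y * ((H y + H (Function.update y P (!y P))) / 2) := by
      have h5 := flip_sum P (fun y => F y * H y)
      simp only [hFinv] at h5
      have h6 : ∑ y, F y * ((H y + H (Function.update y P (!y P))) / 2) =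
          (∑ y, F y * H y + ∑ y, F y * H (Function.update y P (!y P))) / 2 := by
        rw [← Finset.sum_add_distrib, Finset.sum_div]
        refine Finset.sum_congr rfl fun y _ => ?_
        ring
      rw [h6, h5]
      ring
    have h7 : ∑ y, F y * ((H y + H (Function.update y P (!y P))) / 2) ≤
        ∑ y, F y * ((1 + Real.exp (-(φ * θ (Fin.last r) / 4))) / 2) := by
      refine Finset.sum_le_sum fun y _ => ?_
      refine mul_le_mul_of_nonneg_left ?_ (Real.exp_pos _).le
      have := hHH y
      linarith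
    have h8 := ih (fun j => f j.castSucc) (fun j => p j.castSucc) (fun j => a j.castSucc)
      (fun j => θ j.castSucc) (fun j => hθ _) (fun j j' h => htri _ _ (by simpa using h))
    calc ∑ y : ι → Bool, Real.exp (-(φ * ∑ j, (∑ i, f j i * bit (y i) - a j) ^ 2))
        = ∑ y, F y * H y := Finset.sum_congr rfl fun y _ => h1 y
      _ ≤ ∑ y, F y * ((1 + Real.exp (-(φ * θ (Fin.last r) / 4))) / 2) := by rw [h4]; exact h7
      _ = (∑ y, F y) * ((1 + Real.exp (-(φ * θ (Fin.last r) / 4))) / 2) := by
          rw [Finset.sum_mul]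
      _ ≤ (2 ^ Fintype.card ι * ∏ j : Fin r, ((1 + Real.exp (-(φ * θ j.castSucc / 4))) / 2)) *
          ((1 + Real.exp (-(φ * θ (Fin.last r) / 4))) / 2) := by
          refine mul_le_mul_of_nonneg_right h8 (by positivity)
      _ = 2 ^ Fintype.card ι * ∏ j, ((1 + Real.exp (-(φ * θ j / 4))) / 2) := by
          rw [Fin.prod_univ_castSucc]
          ring

open scoped Classical in
/-- The number of 0/1 vectors whose squared distance to a subspace `W` is at most `s`. -/
theorem card_near (W : Submodule ℝ (EuclideanSpace ℝ ι)) (r : ℕ)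
    (hr : r + finrank ℝ W ≤ Fintype.card ι) (φ s : ℝ) (hφ : 0 ≤ φ) :
    ((univ.filter (fun y : ι → Bool => ∃ w ∈ W, ∑ i, (bit (y i) - w i) ^ 2 ≤ s)).card : ℝ) ≤
      Real.exp (φ * s) * (2 ^ Fintype.card ι *
        ∏ j : Fin r, ((1 + Real.exp (-(φ * (((j : ℕ) + 1 : ℝ) / Fintype.card ι) / 4))) / 2)) := by
  classical
  have h1 := W.finrank_add_finrank_orthogonal
  have h2 : finrank ℝ (EuclideanSpace ℝ ι) = Fintype.card ι := finrank_euclideanSpace
  obtain ⟨f, p, hfU, hfo, hfp, hft⟩ := exists_family r Wᗮ (by omega)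
  have h3 := mgf φ hφ r (fun j i => f j i) p (fun _ => 0)
    (fun j => ((j : ℕ) + 1 : ℝ) / Fintype.card ι) hfp hft
  set T := univ.filter (fun y : ι → Bool => ∃ w ∈ W, ∑ i, (bit (y i) - w i) ^ 2 ≤ s) with hT
  have h4 : ∀ y ∈ T, Real.exp (-(φ * s)) ≤
      Real.exp (-(φ * ∑ j, (∑ i, f j i * bit (y i) - 0) ^ 2)) := by
    intro y hy
    obtain ⟨w, hw, hws⟩ := (Finset.mem_filter.1 hy).2
    apply Real.exp_le_exp.2
    have h5 : ∑ j, (∑ i, f j i * bit (y i) - 0) ^ 2 ≤ s := by
      set z : EuclideanSpace ℝ ι := WithLp.toLp 2 (fun i => bit (y i) - w i) with hz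
      have h6 : ∀ j, (∑ i, f j i * bit (y i) - 0) = inner ℝ (f j) z := by
        intro j
        have h7 : inner ℝ (f j) w = 0 := by
          rw [real_inner_comm]
          exact (Submodule.mem_orthogonal _ _).1 (hfU j) w hw
        have h8 : inner ℝ (f j) w = ∑ i, f j i * w i := by
          rw [PiLp.inner_apply]
          refine Finset.sum_congr rfl fun i _ => ?_
          simp [mul_comm]
        have h9 : inner ℝ (f j) z = ∑ i, f j i * (bit (y i) - w i) := by
          rw [PiLp.inner_apply]
          refine Finset.sum_congr rfl fun i _ => ?_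
          simp [hz, mul_comm]
        rw [h9]
        simp only [mul_sub, Finset.sum_sub_distrib]
        rw [← h8, h7]
      have h10 : ∑ j, (∑ i, f j i * bit (y i) - 0) ^ 2 = ∑ j, ‖(inner ℝ (f j) z : ℝ)‖ ^ 2 := by
        refine Finset.sum_congr rfl fun j _ => ?_
        rw [h6 j, Real.norm_eq_abs, sq_abs]
      rw [h10]
      refine le_trans (hfo.sum_inner_products_le z) ?_
      rw [EuclideanSpace.norm_sq_eq]
      refine le_trans (le_of_eq ?_) hws
      refine Finset.sum_congr rfl fun i _ => ?_
      simp [hz]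
    have := mul_le_mul_of_nonneg_left h5 hφ
    linarith
  have h5 : (T.card : ℝ) * Real.exp (-(φ * s)) ≤
      ∑ y : ι → Bool, Real.exp (-(φ * ∑ j, (∑ i, f j i * bit (y i) - 0) ^ 2)) := by
    calc (T.card : ℝ) * Real.exp (-(φ * s)) = ∑ y ∈ T, Real.exp (-(φ * s)) := by
          rw [Finset.sum_const, nsmul_eq_mul]
      _ ≤ ∑ y ∈ T, Real.exp (-(φ * ∑ j, (∑ i, f j i * bit (y i) - 0) ^ 2)) :=
          Finset.sum_le_sum h4
      _ ≤ _ := Finset.sum_le_sum_of_subset_of_nonneg (Finset.subset_univ _)
          fun y _ _ => (Real.exp_pos _).le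
  have h6 := h5.trans h3
  have h7 : (T.card : ℝ) = Real.exp (φ * s) * ((T.card : ℝ) * Real.exp (-(φ * s))) := by
    rw [mul_comm (T.card : ℝ), ← mul_assoc, ← Real.exp_add]
    simp
  rw [h7]
  exact mul_le_mul_of_nonneg_left h6 (Real.exp_pos _).le

end Pool.Agent.Lib.SpG.Dist
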