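import Mathlib

/-!
# Greedy pivots of a subspace (spectral count of random symmetric matrices, part 1)

A subspace `U` of dimension `r` of `ℝ^ι` has a triangular orthonormal family `f 0, ..., f (r-1)` with pivots
`p 0, ..., p (r-1)`: `f j (p j)^2 ≥ (j+1)/|ι|`, and `f j` vanishes at the later pivots.
-/

set_option autoImplicit false
open Module

namespace Pool.Agent.Lib.SpG.Greedy

variable {ι : Type*} [Fintype ι]

/-- One greedy step: a unit vector `f` of `U` with a large coordinate `i`, orthogonal to all vectors of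
`U` which vanish at `i`. -/
theorem exists_pivot (U : Submodule ℝ (EuclideanSpace ℝ ι)) (hU : 0 < finrank ℝ U) :
    ∃ (i : ι) (f : EuclideanSpace ℝ ι), f ∈ U ∧ ‖f‖ = 1 ∧
      (finrank ℝ U : ℝ) / Fintype.card ι ≤ f i ^ 2 ∧
      ∀ u ∈ U, u i = 0 → inner ℝ f u = 0 := by
  classical
  set b := stdOrthonormalBasis ℝ U with hb
  have hsum : ∑ i : ι, ∑ a, (b a : EuclideanSpace ℝ ι) i ^ 2 = finrank ℝ U := by
    rw [Finset.sum_comm]
    have : ∀ a, ∑ i : ι, (b a : EuclideanSpace ℝ ι) i ^ 2 = 1 := by
      intro a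
      have h1 : ‖(b a : EuclideanSpace ℝ ι)‖ = 1 := by
        exact b.orthonormal.1 a
      have h2 := EuclideanSpace.norm_sq_eq (𝕜 := ℝ) (b a : EuclideanSpace ℝ ι)
      rw [h1] at h2
      simpa using h2.symm
    simp [this]
  have hne : Nonempty ι := by
    by_contra h
    rw [not_nonempty_iff] at h
    have : finrank ℝ U = 0 := by
      have h0 : (finrank ℝ U : ℝ) = 0 := by rw [← hsum]; simp
      exact_mod_cast h0
    omega
  have hcard : 0 < (Fintype.card ι : ℝ) := by
    have := Fintype.card_pos (α := ι)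
    exact_mod_cast this
  obtain ⟨i, -, hi⟩ : ∃ i ∈ (Finset.univ : Finset ι), (finrank ℝ U : ℝ) / Fintype.card ι ≤
      ∑ a, (b a : EuclideanSpace ℝ ι) i ^ 2 := by
    refine Finset.exists_le_of_sum_le Finset.univ_nonempty ?_
    rw [hsum, Finset.sum_const, Finset.card_univ, nsmul_eq_mul]
    rw [mul_div_cancel₀ _ hcard.ne']
  set t : ℝ := ∑ a, (b a : EuclideanSpace ℝ ι) i ^ 2 with ht
  have htpos : 0 < t := lt_of_lt_of_le (by positivity) hi
  set v : EuclideanSpace ℝ ι := ∑ a, ((b a : EuclideanSpace ℝ ι) i) • (b a : EuclideanSpace ℝ ι) with hv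
  have hvU : v ∈ U := by
    refine Submodule.sum_mem _ fun a _ => Submodule.smul_mem _ _ (b a).2
  have hinner : ∀ u ∈ U, inner ℝ v u = u i := by
    intro u hu
    have h1 : (u : EuclideanSpace ℝ ι) = ∑ a, (inner ℝ (b a : EuclideanSpace ℝ ι) u) • (b a : EuclideanSpace ℝ ι) := by
      have := b.sum_repr' (⟨u, hu⟩ : U)
      have h2 := congrArg (fun x : U => (x : EuclideanSpace ℝ ι)) this
      simp only [Submodule.coe_sum, Submodule.coe_smul, Submodule.coe_inner] at h2
      exact h2.symm
    have h3 : u i = ∑ a, (inner ℝ (b a : EuclideanSpace ℝ ι) u) * (b a : EuclideanSpace ℝ ι) i := by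
      conv_lhs => rw [h1]
      simp
    rw [h3, hv, sum_inner]
    refine Finset.sum_congr rfl fun a _ => ?_
    rw [inner_smul_left]
    simp [mul_comm]
  have hvi : v i = t := by
    rw [hv, ht]
    simp [pow_two]
  have hvv : ‖v‖ ^ 2 = t := by
    rw [← real_inner_self_eq_norm_sq, hinner v hvU, hvi]
  have hvn : ‖v‖ = √t := by
    rw [← hvv, Real.sqrt_sq (norm_nonneg _)]
  refine ⟨i, (√t)⁻¹ • v, Submodule.smul_mem _ _ hvU, ?_, ?_, ?_⟩
  · rw [norm_smul, hvn, norm_inv, Real.norm_eq_abs, abs_of_nonneg (Real.sqrt_nonneg _)]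
    exact inv_mul_cancel₀ (Real.sqrt_pos.2 htpos).ne'
  · have : ((√t)⁻¹ • v) i = (√t)⁻¹ * t := by simp [hvi]
    rw [this, mul_pow, inv_pow, Real.sq_sqrt htpos.le]
    have : t⁻¹ * t ^ 2 = t := by field_simp
    rw [this]
    exact hi
  · intro u hu hui
    rw [inner_smul_left, hinner u hu, hui, mul_zero]

/-- The hyperplane section `{u ∈ U : u i = 0}`. -/
def sect (U : Submodule ℝ (EuclideanSpace ℝ ι)) (i : ι) : Submodule ℝ (EuclideanSpace ℝ ι) where
  carrier := {u | u ∈ U ∧ u i = 0}
  add_mem' := by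
    rintro a b ⟨ha, ha'⟩ ⟨hb, hb'⟩
    exact ⟨U.add_mem ha hb, by simp [ha', hb']⟩
  zero_mem' := ⟨U.zero_mem, by simp⟩
  smul_mem' := by
    rintro c a ⟨ha, ha'⟩
    exact ⟨U.smul_mem c ha, by simp [ha']⟩

omit [Fintype ι] in
theorem mem_sect (U : Submodule ℝ (EuclideanSpace ℝ ι)) (i : ι) (u : EuclideanSpace ℝ ι) :
    u ∈ sect U i ↔ u ∈ U ∧ u i = 0 := Iff.rfl

theorem finrank_sect (U : Submodule ℝ (EuclideanSpace ℝ ι)) (i : ι) :
    finrank ℝ U ≤ finrank ℝ (sect U i) + 1 := by
  classical
  set φ : U →ₗ[ℝ] ℝ :=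
    { toFun := fun u => (u : EuclideanSpace ℝ ι) i
      map_add' := by intro a b; simp
      map_smul' := by intro c a; simp } with hφ
  have h1 := LinearMap.finrank_range_add_finrank_ker φ
  have h2 : finrank ℝ (LinearMap.range φ) ≤ 1 := by
    have := Submodule.finrank_le (LinearMap.range φ)
    simpa using this
  have h3 : finrank ℝ (LinearMap.ker φ) = finrank ℝ (sect U i) := by
    have h4 : (LinearMap.ker φ).map U.subtype = sect U i := by
      ext x
      simp only [Submodule.mem_map, LinearMap.mem_ker, Submodule.subtype_apply, mem_sect]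
      constructor
      · rintro ⟨y, hy, rfl⟩
        exact ⟨y.2, hy⟩
      · rintro ⟨h5, h6⟩
        exact ⟨⟨x, h5⟩, h6, rfl⟩
    rw [← h4]
    exact (LinearEquiv.finrank_eq (Submodule.equivMapOfInjective U.subtype U.injective_subtype _))
  omega

/-- The triangular orthonormal family. -/
theorem exists_family (r : ℕ) : ∀ (U : Submodule ℝ (EuclideanSpace ℝ ι)), r ≤ finrank ℝ U →
    ∃ (f : Fin r → EuclideanSpace ℝ ι) (p : Fin r → ι), (∀ j, f j ∈ U) ∧ Orthonormal ℝ f ∧
      (∀ j : Fin r, ((j : ℕ) + 1 : ℝ) / Fintype.card ι ≤ f j (p j) ^ 2) ∧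
      ∀ j j' : Fin r, j < j' → f j (p j') = 0 := by
  classical
  induction r with
  | zero =>
    intro U _
    exact ⟨fun j => j.elim0, fun j => j.elim0, fun j => j.elim0,
      ⟨fun j => j.elim0, fun j => j.elim0⟩, fun j => j.elim0, fun j => j.elim0⟩
  | succ r ih =>
    intro U hU
    obtain ⟨i, g, hgU, hg1, hgi, hgo⟩ := exists_pivot U (by omega)
    obtain ⟨f, p, hfU, hfo, hfp, hft⟩ := ih (sect U i) (by have := finrank_sect U i; omega)
    refine ⟨Fin.snoc (α := fun _ => EuclideanSpace ℝ ι) f g, Fin.snoc (α := fun _ => ι) p i, ?_, ?_, ?_, ?_⟩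
    · intro j
      refine Fin.lastCases ?_ (fun j => ?_) j
      · simpa using hgU
      · simpa using (hfU j).1
    · constructor
      · intro j
        refine Fin.lastCases ?_ (fun j => ?_) j
        · simpa using hg1
        · simpa using hfo.1 j
      · intro j j' hjj
        revert hjj
        refine Fin.lastCases ?_ (fun j => ?_) j
        · refine Fin.lastCases ?_ (fun j' => ?_) j'
          · intro h; exact absurd rfl h
          · intro _
            simpa using hgo (f j') (hfU j').1 (hfU j').2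
        · refine Fin.lastCases ?_ (fun j' => ?_) j'
          · intro _
            rw [real_inner_comm]
            simpa using hgo (f j) (hfU j).1 (hfU j).2
          · intro h
            have h2 : j ≠ j' := fun e => h (by rw [e])
            simpa using hfo.2 h2
    · intro j
      refine Fin.lastCases ?_ (fun j => ?_) j
      · simp only [Fin.snoc_last, Fin.val_last]
        refine le_trans ?_ hgi
        gcongr
        exact_mod_cast hU
      · simpa using hfp j
    · intro j j' hjj
      revert hjj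
      refine Fin.lastCases ?_ (fun j' => ?_) j'
      · refine Fin.lastCases ?_ (fun j => ?_) j
        · intro h; exact absurd h (lt_irrefl _)
        · intro _
          simpa using (hfU j).2
      · refine Fin.lastCases ?_ (fun j => ?_) j
        · intro h
          exact absurd (Fin.castSucc_lt_last j') (not_lt.2 h.le)
        · intro h
          have h2 : j < j' := by simpa using h
          simpa using hft j j' h2

end Pool.Agent.Lib.SpG.Greedy
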